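import Pool.Agent.Work.MP_058ed1_gt.D.Del

/-!
# `0` in the spectrum: from the completion of `Ω_c^p(X)` to the abstract definition
-/

open scoped Manifold ContDiff Topology Bundle ENNReal NNReal
open Set MeasureTheory Bundle

set_option linter.unusedSectionVars false

noncomputable section

namespace Pool.Agent.ZSp

universe u v

variable {E : Type u} [NormedAddCommGroup E] [InnerProductSpace ℝ E] [FiniteDimensional ℝ E]
  {X : Type v} [EMetricSpace X] [ChartedSpace E X]
  [IsManifold 𝓘(ℝ, E) ∞ X] [RiemannianBundle (fun x : X => TangentSpace 𝓘(ℝ, E) x)]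
  [IsContMDiffRiemannianBundle 𝓘(ℝ, E) ∞ E (fun x : X => TangentSpace 𝓘(ℝ, E) x)]
  [IsRiemannianManifold 𝓘(ℝ, E) X] [MeasurableSpace X] [BorelSpace X] {p : ℕ}

theorem zeroSpec_of_zeroInSpec (h : ZeroInSpec E X p) : ZeroSpec E X p := by
  refine ⟨fun w hw => exists_lapEq hw, L2F E X p, inferInstance, inferInstance, inferInstance,
    toL2, isL2_toL2, ?_⟩
  rintro ⟨B, hB⟩
  rw [lapMin_toL2] at hB
  exact h ⟨B, hB⟩

end Pool.Agent.ZSp
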