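import Mathlib

/-!
# Cell DEL, module IBP: integration by parts for a linear differential expression
-/

open scoped Topology ContDiff
open Filter MeasureTheory

noncomputable section

namespace Pool.Agent.ZSp

variable {E : Type*} [NormedAddCommGroup E] [InnerProductSpace ℝ E] [FiniteDimensional ℝ E]
  [MeasurableSpace E] [BorelSpace E] {W : Type*} [NormedAddCommGroup W] [NormedSpace ℝ W]
  [FiniteDimensional ℝ W]

/-- the divergence of the family `G_j` of functionals: `∑_j ∂_j G_j`. -/
def divG (G : Fin (Module.finrank ℝ E) → E → W →L[ℝ] ℝ) (y : E) : W →L[ℝ] ℝ :=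
  ∑ j : Fin (Module.finrank ℝ E), fderiv ℝ (G j) y (stdOrthonormalBasis ℝ E j)

omit [MeasurableSpace E] [BorelSpace E] [FiniteDimensional ℝ W] in
theorem contDiff_divG {G : Fin (Module.finrank ℝ E) → E → W →L[ℝ] ℝ}
    (hG : ∀ j, ContDiff ℝ ∞ (G j)) : ContDiff ℝ ∞ (divG G) := by
  unfold divG
  refine ContDiff.sum fun j _ => ?_
  exact ((hG j).fderiv_right (m := ∞) (by simp)).clm_apply contDiff_const

omit [MeasurableSpace E] [BorelSpace E] [FiniteDimensional ℝ W] in
theorem divG_eq_zero {G : Fin (Module.finrank ℝ E) → E → W →L[ℝ] ℝ} {y : E}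
    (h : ∀ j, ∀ᶠ z in 𝓝 y, G j z = 0) : divG G y = 0 := by
  unfold divG
  refine Finset.sum_eq_zero fun j _ => ?_
  have : G j =ᶠ[𝓝 y] fun _ => 0 := h j
  rw [this.fderiv_eq]
  simp

omit [InnerProductSpace ℝ E] [FiniteDimensional ℝ E] [MeasurableSpace E] [BorelSpace E]
  [FiniteDimensional ℝ W] in
/-- a function which is smooth near a compact set and zero off this set is smooth. -/
theorem contDiff_of_eq_zero_off [NormedSpace ℝ E] {K U : Set E} (hK : IsCompact K) (hU : IsOpen U)
    (hKU : K ⊆ U) {F : E → W} (hF : ContDiffOn ℝ ∞ F U) (h0 : ∀ y, y ∉ K → F y = 0) :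
    ContDiff ℝ ∞ F := by
  rw [contDiff_iff_contDiffAt]
  intro y
  by_cases hy : y ∈ U
  · exact hF.contDiffAt (hU.mem_nhds hy)
  · have h : F =ᶠ[𝓝 y] fun _ => 0 := by
      filter_upwards [hK.isClosed.isOpen_compl.mem_nhds (fun h => hy (hKU h))] with z hz
      exact h0 z hz
    exact contDiffAt_const.congr_of_eventuallyEq h

omit [FiniteDimensional ℝ W] in
theorem integral_fderiv_apply_eq_zero {μ : Measure E} [μ.IsAddHaarMeasure] {F : E → ℝ}
    (hF : ContDiff ℝ ∞ F) (hc : HasCompactSupport F) (v : E) :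
    ∫ y, fderiv ℝ F y v ∂μ = 0 := by
  have hF' : Continuous fun y => fderiv ℝ F y v :=
    ((hF.continuous_fderiv (by simp)).clm_apply continuous_const)
  have hc' : HasCompactSupport fun y => fderiv ℝ F y v := hc.fderiv_apply (𝕜 := ℝ) v
  have h := integral_bilinear_hasLineDerivAt_right_eq_neg_left_of_integrable (μ := μ)
    (f := F) (f' := fun y => fderiv ℝ F y v) (g := fun _ => (1 : ℝ)) (g' := fun _ => (0 : ℝ))
    (v := v) (B := ContinuousLinearMap.mul ℝ ℝ)
    (by simpa using hF'.integrable_of_hasCompactSupport hc')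
    (by simp) (by simpa using hF.continuous.integrable_of_hasCompactSupport hc)
    (fun y _ => ((hF.differentiable (by simp)) y).hasFDerivAt.hasLineDerivAt v)
    (fun y _ => by simpa using (hasFDerivAt_const (1 : ℝ) y).hasLineDerivAt v)
  simpa using h.symm

omit [FiniteDimensional ℝ W] in
/-- integration by parts (`a` is smooth near the support of the `G_j`). -/
theorem integral_divG {μ : Measure E} [μ.IsAddHaarMeasure]
    {G : Fin (Module.finrank ℝ E) → E → W →L[ℝ] ℝ} (hG : ∀ j, ContDiff ℝ ∞ (G j))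
    {K U : Set E} (hK : IsCompact K) (hG0 : ∀ j, ∀ y, y ∉ K → G j y = 0) (hU : IsOpen U)
    (hKU : K ⊆ U) {a : E → W} (ha : ContDiffOn ℝ ∞ a U) :
    ∫ y, ∑ j, G j y (fderiv ℝ a y (stdOrthonormalBasis ℝ E j)) ∂μ =
      - ∫ y, divG G y (a y) ∂μ := by
  have hKo : IsOpen Kᶜ := hK.isClosed.isOpen_compl
  have hG0' : ∀ j, ∀ y, y ∉ K → ∀ v, fderiv ℝ (G j) y v = 0 := by
    intro j y hy v
    have : G j =ᶠ[𝓝 y] fun _ => 0 := by
      filter_upwards [hKo.mem_nhds hy] with z hz
      exact hG0 j z hz
    rw [this.fderiv_eq]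
    simp
  -- the two families of integrands
  have hA : ∀ j, ContDiff ℝ ∞ fun y => G j y (fderiv ℝ a y (stdOrthonormalBasis ℝ E j)) := by
    intro j
    refine contDiff_of_eq_zero_off hK hU hKU ?_ (fun y hy => by rw [hG0 j y hy]; simp)
    exact (hG j).contDiffOn.clm_apply
      ((ha.fderiv_of_isOpen (m := ∞) hU (by simp)).clm_apply contDiffOn_const)
  have hB : ∀ j, ContDiff ℝ ∞ fun y => (fderiv ℝ (G j) y (stdOrthonormalBasis ℝ E j)) (a y) := by
    intro j
    refine contDiff_of_eq_zero_off hK hU hKU ?_ (fun y hy => by rw [hG0' j y hy]; simp)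
    exact ((((hG j).fderiv_right (m := ∞) (by simp)).clm_apply contDiff_const).contDiffOn).clm_apply
      ha
  have hF : ∀ j, ContDiff ℝ ∞ fun y => G j y (a y) := by
    intro j
    exact contDiff_of_eq_zero_off hK hU hKU ((hG j).contDiffOn.clm_apply ha)
      (fun y hy => by rw [hG0 j y hy]; simp)
  have hAi : ∀ j, Integrable (fun y => G j y (fderiv ℝ a y (stdOrthonormalBasis ℝ E j))) μ := by
    intro j
    exact (hA j).continuous.integrable_of_hasCompactSupport
      (HasCompactSupport.intro hK fun y hy => by rw [hG0 j y hy]; simp)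
  have hBi : ∀ j, Integrable
      (fun y => (fderiv ℝ (G j) y (stdOrthonormalBasis ℝ E j)) (a y)) μ := by
    intro j
    exact (hB j).continuous.integrable_of_hasCompactSupport
      (HasCompactSupport.intro hK fun y hy => by rw [hG0' j y hy]; simp)
  have key : ∀ j, ∫ y, G j y (fderiv ℝ a y (stdOrthonormalBasis ℝ E j)) ∂μ +
      ∫ y, (fderiv ℝ (G j) y (stdOrthonormalBasis ℝ E j)) (a y) ∂μ = 0 := by
    intro j
    rw [← integral_add (hAi j) (hBi j),
      ← integral_fderiv_apply_eq_zero (μ := μ) (hF j)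
        (HasCompactSupport.intro hK fun y hy => by rw [hG0 j y hy]; simp)
        (stdOrthonormalBasis ℝ E j)]
    congr 1
    funext y
    by_cases hy : y ∈ U
    · have hay : DifferentiableAt ℝ a y :=
        (ha.contDiffAt (hU.mem_nhds hy)).differentiableAt (by simp)
      rw [fderiv_clm_apply (((hG j).differentiable (by simp)) y) hay]
      simp
    · have hyK : y ∉ K := fun h => hy (hKU h)
      have : (fun y => G j y (a y)) =ᶠ[𝓝 y] fun _ => 0 := by
        filter_upwards [hKo.mem_nhds hyK] with z hz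
        rw [hG0 j z hz]
        simp
      rw [this.fderiv_eq, hG0 j y hyK, hG0' j y hyK]
      simp
  unfold divG
  simp only [ContinuousLinearMap.sum_apply]
  rw [integral_finsetSum _ fun j _ => hAi j, integral_finsetSum _ fun j _ => hBi j,
    ← Finset.sum_neg_distrib]
  exact Finset.sum_congr rfl fun j _ => eq_neg_of_add_eq_zero_left (key j)

end Pool.Agent.ZSp
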