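import Pool.Agent.Work.MP_058ed1_gt.G.FormsA
import Pool.Agent.Work.MP_058ed1_gt.G.L2Def

/-!
# Cell DEL, module OFCHART: a form on the chart domain as a form on `X`; splitting of forms
-/

open scoped Manifold ContDiff Topology Bundle ENNReal NNReal
open Set MeasureTheory Bundle Filter

set_option linter.unusedSectionVars false

noncomputable section

namespace Pool.Agent.ZSp

variable {E : Type*} [NormedAddCommGroup E] [InnerProductSpace ℝ E] [FiniteDimensional ℝ E]
  {X : Type*} [EMetricSpace X] [ChartedSpace E X] [IsManifold 𝓘(ℝ, E) ∞ X] {q : ℕ}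

open Classical in
/-- the form `om` on the target of the chart, as a form on `X`. -/
def ofChart (x₀ : X) (om : E → E [⋀^Fin q]→L[ℝ] ℝ) : PForm E X q := fun x =>
  if x ∈ (ch E x₀).source then (om (ch E x₀ x)).compContinuousLinearMap
    (mfderiv 𝓘(ℝ, E) 𝓘(ℝ, E) (ch E x₀) x) else 0

open Classical in
theorem ofChart_of_mem (x₀ : X) (om : E → E [⋀^Fin q]→L[ℝ] ℝ) {x : X}
    (hx : x ∈ (ch E x₀).source) : (ofChart x₀ om : PForm E X q) x =
      (om (ch E x₀ x)).compContinuousLinearMap (mfderiv 𝓘(ℝ, E) 𝓘(ℝ, E) (ch E x₀) x) := by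
  unfold ofChart
  rw [if_pos hx]

open Classical in
theorem ofChart_of_not_mem (x₀ : X) (om : E → E [⋀^Fin q]→L[ℝ] ℝ) {x : X}
    (hx : x ∉ (ch E x₀).source) : (ofChart x₀ om : PForm E X q) x = 0 := by
  unfold ofChart
  rw [if_neg hx]

theorem inChart_ofChart (x₀ : X) (om : E → E [⋀^Fin q]→L[ℝ] ℝ) {y : E}
    (hy : y ∈ (ch E x₀).target) : inChart (ofChart x₀ om : PForm E X q) x₀ y = om y := by
  ext v
  change (ofChart x₀ om : PForm E X q) ((ch E x₀).symm y) _ = om y v
  rw [ofChart_of_mem x₀ om ((ch E x₀).map_target hy)]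
  change om (ch E x₀ ((ch E x₀).symm y)) _ = om y v
  rw [(ch E x₀).right_inv hy]
  congr 1
  funext i
  exact mfderiv_ch_comp hy (v i)

/-- the support of `ofChart`. -/
theorem ofChart_eq_zero (x₀ : X) {om : E → E [⋀^Fin q]→L[ℝ] ℝ} {K : Set E}
    (h0 : ∀ y ∈ (ch E x₀).target, y ∉ K → om y = 0) {x : X}
    (hx : x ∉ (ch E x₀).symm '' K) : (ofChart x₀ om : PForm E X q) x = 0 := by
  by_cases hs : x ∈ (ch E x₀).source
  · rw [ofChart_of_mem x₀ om hs]
    have h1 : om (ch E x₀ x) = 0 := by
      refine h0 _ ((ch E x₀).map_source hs) fun hK => hx ⟨_, hK, (ch E x₀).left_inv hs⟩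
    rw [h1]
    ext v
    rfl
  · exact ofChart_of_not_mem x₀ om hs

theorem isCompact_symm_image (x₀ : X) {K : Set E} (hK : IsCompact K)
    (hKt : K ⊆ (ch E x₀).target) : IsCompact ((ch E x₀).symm '' K) :=
  hK.image_of_continuousOn ((continuousOn_extChartAt_symm x₀).mono hKt)

theorem ofChart_mem (x₀ : X) {om : E → E [⋀^Fin q]→L[ℝ] ℝ}
    (hom : ContDiffOn ℝ ∞ om (ch E x₀).target) {K : Set E} (hK : IsCompact K)
    (hKt : K ⊆ (ch E x₀).target) (h0 : ∀ y ∈ (ch E x₀).target, y ∉ K → om y = 0) :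
    (ofChart x₀ om : PForm E X q) ∈ OmegaC E X q := by
  have hC := isCompact_symm_image x₀ hK hKt
  refine ⟨?_, hC.of_isClosed_subset isClosed_closure (closure_minimal ?_ hC.isClosed)⟩
  · intro x₁ y hy
    refine ContDiffAt.contDiffWithinAt ?_
    by_cases hs : (ch E x₁).symm y ∈ (ch E x₀).source
    · have hs' : (id ((ch E x₁).symm y) : X) ∈ (ch E x₀).source := hs
      have hT : ContDiffAt ℝ ∞ (chTrans id x₁ x₀) y := contDiffAt_chTrans contMDiff_id hy hs'
      have hyt : chTrans id x₁ x₀ y ∈ (ch E x₀).target := (ch E x₀).map_source hs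
      have h2 : ContDiffAt ℝ ∞ (fun z => om (chTrans id x₁ x₀ z)) y :=
        (hom.contDiffAt (ch_target_nhds hyt)).comp y hT
      have h3 : ContDiffAt ℝ ∞ (fderiv ℝ (chTrans id x₁ x₀)) y := hT.fderiv_right (by simp)
      refine (contDiffAt_altComp h2 h3).congr_of_eventuallyEq ?_
      filter_upwards [eventually_chTrans hy (g := (id : X → X)) continuousAt_id hs'] with z hz
      rw [inChart_chTrans (ofChart x₀ om : PForm E X q) hz.1 hz.2,
        inChart_ofChart x₀ om (show chTrans id x₁ x₀ z ∈ (ch E x₀).target from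
          (ch E x₀).map_source hz.2)]
    · have hn : (ch E x₁).symm y ∉ (ch E x₀).symm '' K := by
        rintro ⟨z, hz, hzy⟩
        exact hs (hzy ▸ (ch E x₀).map_target (hKt hz))
      refine (contDiffAt_const (c := (0 : E [⋀^Fin q]→L[ℝ] ℝ))).congr_of_eventuallyEq ?_
      filter_upwards [(continuousAt_ch_symm hy).eventually
        (hC.isClosed.isOpen_compl.mem_nhds hn)] with z hz
      unfold inChart
      rw [ofChart_eq_zero x₀ h0 hz]
      ext w
      rfl
  · intro x hx
    by_contra hcon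
    exact hx (ofChart_eq_zero x₀ h0 hcon)

theorem omegaC_fmul {f : X → ℝ} (hf : ContMDiff 𝓘(ℝ, E) 𝓘(ℝ, ℝ) ∞ f) {b : PForm E X q}
    (hb : b ∈ OmegaC E X q) : (fun x => f x • b x : PForm E X q) ∈ OmegaC E X q := by
  refine ⟨hb.1.fmul hf, hb.2.of_isClosed_subset isClosed_closure (closure_mono ?_)⟩
  intro x hx h0
  apply hx
  show f x • b x = 0
  rw [h0, smul_zero]

/-- a property of forms with compact support which is additive and holds for forms supported in
a chart domain holds for all. -/
theorem omegaC_induction {P : PForm E X q → Prop} (h0 : P 0)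
    (hadd : ∀ b ∈ OmegaC E X q, ∀ b' ∈ OmegaC E X q, P b → P b' → P (b + b'))
    (hloc : ∀ (x₀ : X), ∀ b ∈ OmegaC E X q,
      closure {x | b x ≠ 0} ⊆ (ch E x₀).source → P b)
    {b : PForm E X q} (hb : b ∈ OmegaC E X q) : P b := by
  classical
  have hf : ∀ x : X, Nonempty (SmoothBumpFunction 𝓘(ℝ, E) x) := fun x => inferInstance
  obtain ⟨f⟩ := Classical.nonempty_pi.2 hf
  have key : ∀ t : Finset X, ∀ b ∈ OmegaC E X q,
      (∀ x, b x ≠ 0 → ∃ i ∈ t, f i x = 1) → P b := by
    intro t
    induction t using Finset.induction_on with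
    | empty =>
      intro b hb hcov
      have : b = 0 := by
        funext x
        by_contra hx
        obtain ⟨i, hi, -⟩ := hcov x hx
        simp at hi
      rw [this]
      exact h0
    | insert a t ha ih =>
      intro b hb hcov
      have hfs : ContMDiff 𝓘(ℝ, E) 𝓘(ℝ, ℝ) ∞ (f a) := (f a).contMDiff
      have hgs : ContMDiff 𝓘(ℝ, E) 𝓘(ℝ, ℝ) ∞ (fun x => 1 - f a x) :=
        contMDiff_const.sub hfs
      have h1 : P (fun x => f a x • b x) := by
        refine hloc a _ (omegaC_fmul hfs hb) ?_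
        refine subset_trans (closure_mono ?_) (f a).tsupport_subset_extChartAt_source
        intro x hx hfx
        apply hx
        show f a x • b x = 0
        rw [hfx, zero_smul]
      have h2 : P (fun x => (1 - f a x) • b x) := by
        refine ih _ (omegaC_fmul hgs hb) ?_
        intro x hx
        have hbx : b x ≠ 0 := fun h => hx (by show (1 - f a x) • b x = 0; rw [h, smul_zero])
        obtain ⟨i, hi, hi1⟩ := hcov x hbx
        rcases Finset.mem_insert.1 hi with rfl | hi
        · exact absurd (show (1 - f i x) • b x = 0 by rw [hi1, sub_self, zero_smul]) hx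
        · exact ⟨i, hi, hi1⟩
      have h3 : b = (fun x => f a x • b x : PForm E X q) + (fun x => (1 - f a x) • b x) := by
        funext x
        show b x = f a x • b x + (1 - f a x) • b x
        rw [← add_smul]
        simp
      rw [h3]
      exact hadd _ (omegaC_fmul hfs hb) _ (omegaC_fmul hgs hb) h1 h2
  obtain ⟨t, -, ht⟩ := hb.2.elim_nhds_subcover (fun x => {z | f x z = 1}) fun x _ =>
    (f x).eventuallyEq_one
  refine key t b hb fun x hx => ?_
  have := ht (subset_closure hx)
  simp only [mem_iUnion, exists_prop] at this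
  exact this

end Pool.Agent.ZSp
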