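import Pool.Agent.Work.MP_058ed1_gt.D.Dens
import Pool.Agent.Work.MP_058ed1_gt.D.Ibp
import Pool.Agent.Work.MP_058ed1_gt.D.OfChart
import Pool.Agent.Work.MP_058ed1_gt.G.Bridge
import Pool.Agent.Work.MP_058ed1_gt.G.Hodge

/-!
# Cell DEL: the formal adjoint `δ` exists, so the Laplacian is defined on all of `Ω_c^p(X)`
-/

open scoped Manifold ContDiff Topology Bundle ENNReal NNReal
open Set MeasureTheory Bundle Filter

set_option linter.unusedSectionVars false

noncomputable section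

namespace Pool.Agent.ZSp

section smoothaux

variable {E : Type*} [NormedAddCommGroup E] [NormedSpace ℝ E] {W W' : Type*}
  [NormedAddCommGroup W] [NormedSpace ℝ W] [NormedAddCommGroup W'] [NormedSpace ℝ W'] {s : Set E}

theorem contDiffOn_smul_comp_clm {f : E → ℝ} {B : E → (W →L[ℝ] ℝ)} (hf : ContDiffOn ℝ ∞ f s)
    (hB : ContDiffOn ℝ ∞ B s) (L : W' →L[ℝ] W) :
    ContDiffOn ℝ ∞ (fun y => f y • (B y).comp L) s :=
  hf.smul (hB.clm_comp contDiffOn_const)

theorem contDiffOn_smul_clm' {f : E → ℝ} {B : E → (W →L[ℝ] ℝ)} (hf : ContDiffOn ℝ ∞ f s)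
    (hB : ContDiffOn ℝ ∞ B s) : ContDiffOn ℝ ∞ (fun y => f y • B y) s := hf.smul hB

end smoothaux

variable {E : Type*} [NormedAddCommGroup E] [InnerProductSpace ℝ E] [FiniteDimensional ℝ E]
  {X : Type*} [EMetricSpace X] [ChartedSpace E X]
  [IsManifold 𝓘(ℝ, E) ∞ X] [RiemannianBundle (fun x : X => TangentSpace 𝓘(ℝ, E) x)]
  [IsContMDiffRiemannianBundle 𝓘(ℝ, E) ∞ E (fun x : X => TangentSpace 𝓘(ℝ, E) x)]
  [IsRiemannianManifold 𝓘(ℝ, E) X] [MeasurableSpace X] [BorelSpace X] {p : ℕ}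

variable (E) in
/-- `w ↦ e_j^* ∧ w`, so that `extDeriv a y = ∑_j T_j (∂_j a (y))`. -/
def tj (p : ℕ) (j : Fin (Module.finrank ℝ E)) (w : E [⋀^Fin p]→L[ℝ] ℝ) :
    E [⋀^Fin (p + 1)]→L[ℝ] ℝ :=
  .alternatizeUncurryFin ((innerSL ℝ (stdOrthonormalBasis ℝ E j)).smulRight w)

variable (E) in
/-- `tj` as a continuous linear map. -/
def tjL (p : ℕ) (j : Fin (Module.finrank ℝ E)) :
    (E [⋀^Fin p]→L[ℝ] ℝ) →L[ℝ] (E [⋀^Fin (p + 1)]→L[ℝ] ℝ) :=
  haveI := finite_alt E p
  LinearMap.toContinuousLinearMap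
    { toFun := tj E p j
      map_add' := by
        intro w w'
        unfold tj
        rw [← ContinuousAlternatingMap.alternatizeUncurryFin_add]
        congr 1
        ext v u
        simp
      map_smul' := by
        intro c w
        unfold tj
        ext v
        rw [ContinuousAlternatingMap.alternatizeUncurryFin_apply, RingHom.id_apply,
          ContinuousAlternatingMap.smul_apply,
          ContinuousAlternatingMap.alternatizeUncurryFin_apply, Finset.smul_sum]
        refine Finset.sum_congr rfl fun i _ => ?_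
        simp only [ContinuousLinearMap.smulRight_apply, ContinuousAlternatingMap.smul_apply,
          smul_eq_mul, zsmul_eq_mul]
        ring }

theorem tjL_apply (j : Fin (Module.finrank ℝ E)) (w : E [⋀^Fin p]→L[ℝ] ℝ) :
    tjL E p j w = tj E p j w := rfl

theorem extDeriv_eq_sum_tj (a : E → E [⋀^Fin p]→L[ℝ] ℝ) (y : E) :
    extDeriv a y = ∑ j, tjL E p j (fderiv ℝ a y (stdOrthonormalBasis ℝ E j)) := by
  have h1 : fderiv ℝ a y = ∑ j, (innerSL ℝ (stdOrthonormalBasis ℝ E j)).smulRight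
      (fderiv ℝ a y (stdOrthonormalBasis ℝ E j)) := by
    ext v u
    conv_lhs => rw [← (stdOrthonormalBasis ℝ E).sum_repr' v]
    simp
  have h2 : extDeriv a y = ContinuousAlternatingMap.alternatizeUncurryFinCLM ℝ E ℝ
      (fderiv ℝ a y) := rfl
  rw [h2]
  conv_lhs => rw [h1]
  rw [map_sum]
  rfl

/-- the adjoint in a chart.  Take `G_j(y)(w) = rho(y) ⟨b, T_j w⟩_y`, extended by zero, and solve
`⟨·, c⟩_y = - rho(y)⁻¹ (∑_j ∂_j G_j)(y)` with `exists_bilq_solve`; then use `integral_chart`,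
`pin_eq_bilq`, `inChart_extD` and `integral_divG`. -/
theorem exists_codiff_local (x₀ : X) {b : PForm E X (p + 1)} (hb : b ∈ OmegaC E X (p + 1))
    (hs : closure {x | b x ≠ 0} ⊆ (ch E x₀).source) :
    ∃ c ∈ OmegaC E X p, IsCodiff b c := by
  classical
  let _ : MeasurableSpace E := borel E
  have _ : BorelSpace E := ⟨rfl⟩
  set μ : Measure E := Measure.hausdorffMeasure (Module.finrank ℝ E : ℝ) with hμ
  have hT : IsOpen (ch E x₀).target := ch_target_open x₀
  set K : Set E := (ch E x₀) '' closure {x | b x ≠ 0} with hKdef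
  have hK : IsCompact K := hb.2.image_of_continuousOn ((continuousOn_extChartAt x₀).mono hs)
  have hKT : K ⊆ (ch E x₀).target := by
    rintro y ⟨x, hx, rfl⟩
    exact (ch E x₀).map_source (hs hx)
  have hb0 : ∀ y ∈ (ch E x₀).target, y ∉ K → inChart b x₀ y = 0 := by
    intro y hy hyK
    have h1 : b ((ch E x₀).symm y) = 0 := by
      by_contra hcon
      exact hyK ⟨_, subset_closure hcon, (ch E x₀).right_inv hy⟩
    rw [inChart, h1]
    rfl
  have hbs : ContDiffOn ℝ ∞ (inChart b x₀) (ch E x₀).target := hb.1 x₀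
  have hB : ContDiffOn ℝ ∞ (fun y => bilq x₀ (p + 1) y (inChart b x₀ y)) (ch E x₀).target :=
    contDiffOn_bilq x₀ hbs
  have hB0 : ∀ y ∈ (ch E x₀).target, y ∉ K → bilq x₀ (p + 1) y (inChart b x₀ y) = 0 := by
    intro y hy hyK
    rw [hb0 y hy hyK]
    ext α
    rw [bilq_symm' x₀ y, map_zero]
    rfl
  -- the functionals
  set G : Fin (Module.finrank ℝ E) → E → (E [⋀^Fin p]→L[ℝ] ℝ) →L[ℝ] ℝ := fun j y =>
    if y ∈ (ch E x₀).target then
      rho x₀ y • (bilq x₀ (p + 1) y (inChart b x₀ y)).comp (tjL E p j) else 0 with hGdef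
  have hGT : ∀ j, ContDiffOn ℝ ∞ (G j) (ch E x₀).target := by
    intro j
    have h1 := contDiffOn_smul_comp_clm (contDiffOn_rho x₀) hB (tjL E p j)
    refine h1.congr fun y hy => ?_
    exact if_pos hy
  have hG0 : ∀ j y, y ∉ K → G j y = 0 := by
    intro j y hyK
    show (if y ∈ (ch E x₀).target then _ else _) = _
    split_ifs with hy
    · rw [hB0 y hy hyK]
      ext α
      simp
    · rfl
  have hG : ∀ j, ContDiff ℝ ∞ (G j) := fun j => contDiff_of_eq_zero_off hK hT hKT (hGT j) (hG0 j)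
  have hdiv : ContDiff ℝ ∞ (divG G) := contDiff_divG hG
  have hdiv0 : ∀ y, y ∉ K → divG G y = 0 := by
    intro y hy
    refine divG_eq_zero fun j => ?_
    filter_upwards [hK.isClosed.isOpen_compl.mem_nhds hy] with z hz
    exact hG0 j z hz
  -- the solution
  have hH : ContDiffOn ℝ ∞ (fun y => (-(rho x₀ y)⁻¹) • divG G y) (ch E x₀).target :=
    contDiffOn_smul_clm' (((contDiffOn_rho x₀).inv fun y hy => (rho_pos x₀ hy).ne').neg)
      hdiv.contDiffOn
  obtain ⟨c, hc, hcH, hc0⟩ := exists_bilq_solve x₀ hH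
  have hcK : ∀ y ∈ (ch E x₀).target, y ∉ K → c y = 0 := by
    intro y hy hyK
    refine hc0 y hy ?_
    rw [hdiv0 y hyK, smul_zero]
  have hcm : (ofChart x₀ c : PForm E X p) ∈ OmegaC E X p := ofChart_mem x₀ hc hK hKT hcK
  refine ⟨ofChart x₀ c, hcm, ?_⟩
  intro a ha
  have hsrc : ∀ x, x ∉ (ch E x₀).source → b x = 0 := by
    intro x hx
    by_contra hcon
    exact hx (hs (subset_closure hcon))
  have hda : extD a ∈ OmegaC E X (p + 1) := extD_mem ha
  -- left side
  have hL : l2 (extD a) b = ∫ y in (ch E x₀).target, ∑ j, G j y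
      (fderiv ℝ (inChart a x₀) y (stdOrthonormalBasis ℝ E j)) ∂μ := by
    rw [l2, integral_chart x₀ (continuous_pin hda.1 hb.1) (fun x hx => by
      rw [pin_comm]
      exact pin_eq_zero _ (hsrc x hx))]
    refine setIntegral_congr_fun hT.measurableSet fun y hy => ?_
    show rho x₀ y * pin (extD a) b ((ch E x₀).symm y) = ∑ j, G j y _
    rw [pin_eq_bilq x₀ hy, bilq_symm' x₀ y, inChart_extD ha.1 x₀ hy, extDeriv_eq_sum_tj, map_sum,
      Finset.mul_sum]
    refine Finset.sum_congr rfl fun j _ => ?_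
    have h1 : G j y = rho x₀ y • (bilq x₀ (p + 1) y (inChart b x₀ y)).comp (tjL E p j) :=
      if_pos hy
    rw [h1]
    rfl
  have hR : l2 a (ofChart x₀ c) = ∫ y in (ch E x₀).target,
      -(divG G y (inChart a x₀ y)) ∂μ := by
    rw [l2, integral_chart x₀ (continuous_pin ha.1 hcm.1) (fun x hx => by
      rw [pin_comm]
      refine pin_eq_zero _ ?_
      exact ofChart_of_not_mem x₀ c hx)]
    refine setIntegral_congr_fun hT.measurableSet fun y hy => ?_
    show rho x₀ y * pin a (ofChart x₀ c) ((ch E x₀).symm y) = _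
    rw [pin_eq_bilq x₀ hy, inChart_ofChart x₀ c hy, hcH y hy]
    show rho x₀ y * (-(rho x₀ y)⁻¹ * divG G y (inChart a x₀ y)) = _
    have := (rho_pos x₀ hy).ne'
    field_simp
  have hsetL : ∫ y in (ch E x₀).target, ∑ j, G j y
      (fderiv ℝ (inChart a x₀) y (stdOrthonormalBasis ℝ E j)) ∂μ = ∫ y, ∑ j, G j y
      (fderiv ℝ (inChart a x₀) y (stdOrthonormalBasis ℝ E j)) ∂μ := by
    refine setIntegral_eq_integral_of_forall_compl_eq_zero fun y hy => ?_
    refine Finset.sum_eq_zero fun j _ => ?_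
    rw [hG0 j y (fun h => hy (hKT h))]
    rfl
  have hsetR : ∫ y in (ch E x₀).target, -(divG G y (inChart a x₀ y)) ∂μ =
      ∫ y, -(divG G y (inChart a x₀ y)) ∂μ := by
    refine setIntegral_eq_integral_of_forall_compl_eq_zero fun y hy => ?_
    rw [hdiv0 y (fun h => hy (hKT h))]
    simp
  rw [hL, hR, hsetL, hsetR, integral_neg]
  exact integral_divG hG hK hG0 hT hKT (ha.1 x₀)

theorem exists_codiff {b : PForm E X (p + 1)} (hb : b ∈ OmegaC E X (p + 1)) :
    ∃ c ∈ OmegaC E X p, IsCodiff b c := by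
  refine omegaC_induction (P := fun b => ∃ c ∈ OmegaC E X p, IsCodiff b c) ?_ ?_ ?_ hb
  · refine ⟨0, (OmegaC E X p).zero_mem, fun a _ => ?_⟩
    rw [l2_comm, l2_zero_left, l2_comm, l2_zero_left]
  · rintro b hb b' hb' ⟨c, hc, h⟩ ⟨c', hc', h'⟩
    refine ⟨c + c', (OmegaC E X p).add_mem hc hc', fun a ha => ?_⟩
    rw [l2_comm, l2_add_left hb hb' (extD_mem ha), l2_comm b, l2_comm b', h a ha, h' a ha,
      l2_comm a (c + c'), l2_add_left hc hc' ha, l2_comm c, l2_comm c']
  · intro x₀ b hb hs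
    exact exists_codiff_local x₀ hb hs

/-- the Laplacian is defined on all smooth forms with compact support. -/
theorem exists_lapEq {w : PForm E X p} (hw : Test w) : ∃ η : PForm E X p, LapEq p w η := by
  rw [show (∃ η : PForm E X p, LapEq p w η) ↔ ∃ η : PForm E X p, Test w ∧ Test η ∧ IsLap p w η
    from exists_congr fun η => lapEq_iff]
  cases p with
  | zero =>
    obtain ⟨c, hc, h⟩ := exists_codiff (extD_mem hw)
    exact ⟨c, hw, hc, h⟩
  | succ p =>
    obtain ⟨c, hc, h⟩ := exists_codiff hw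
    obtain ⟨d, hd, h'⟩ := exists_codiff (extD_mem hw)
    exact ⟨extD c + d, hw, (OmegaC E X (p + 1)).add_mem (extD_mem hc) hd,
      c, hc, d, hd, h, h', rfl⟩

end Pool.Agent.ZSp
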