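import Pool.Agent.Work.MP_058ed1_gt.G.FormsA
import Pool.Agent.Work.MP_058ed1_gt.G.Pw

/-!
# Cell DEL, module GRAM: the Gram matrix of a chart, the pointwise product in a chart
-/

open scoped Manifold ContDiff Topology Bundle ENNReal NNReal
open Set MeasureTheory Bundle Filter

set_option linter.unusedSectionVars false

noncomputable section

namespace Pool.Agent.ZSp

section matrixaux

variable {E : Type*} [NormedAddCommGroup E] [NormedSpace ℝ E] {ι : Type*} [Fintype ι]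
  [DecidableEq ι] {s : Set E}

theorem contDiffOn_mdet {M : E → Matrix ι ι ℝ}
    (hM : ∀ i j, ContDiffOn ℝ ∞ (fun y => M y i j) s) :
    ContDiffOn ℝ ∞ (fun y => (M y).det) s := by
  simp only [Matrix.det_apply']
  refine ContDiffOn.sum fun σ _ => ?_
  exact contDiffOn_const.mul (contDiffOn_prod fun i _ => hM _ _)

theorem contDiffOn_minv {M : E → Matrix ι ι ℝ}
    (hM : ∀ i j, ContDiffOn ℝ ∞ (fun y => M y i j) s) (hd : ∀ y ∈ s, (M y).det ≠ 0) (i j : ι) :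
    ContDiffOn ℝ ∞ (fun y => (M y)⁻¹ i j) s := by
  have h : ∀ y, (M y)⁻¹ i j = ((M y).det)⁻¹ * ((M y).updateRow j (Pi.single i 1)).det := by
    intro y
    rw [Matrix.inv_def, Matrix.smul_apply, Ring.inverse_eq_inv', smul_eq_mul,
      Matrix.adjugate_apply]
  simp only [h]
  refine ((contDiffOn_mdet hM).inv hd).mul (contDiffOn_mdet fun k l => ?_)
  simp only [Matrix.updateRow_apply]
  split_ifs
  · exact contDiffOn_const
  · exact hM k l

omit [Fintype ι] [DecidableEq ι] in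
theorem contDiffOn_smul_clm {W : Type*} [NormedAddCommGroup W] [NormedSpace ℝ W] {f : E → ℝ}
    (hf : ContDiffOn ℝ ∞ f s) (v : W →L[ℝ] ℝ) : ContDiffOn ℝ ∞ (fun y => f y • v) s :=
  hf.smul contDiffOn_const

omit [Fintype ι] [DecidableEq ι] in
theorem contDiffOn_const_smul_clm {W : Type*} [NormedAddCommGroup W] [NormedSpace ℝ W]
    {f : E → (W →L[ℝ] ℝ)} (hf : ContDiffOn ℝ ∞ f s) (c : ℝ) :
    ContDiffOn ℝ ∞ (fun y => c • f y) s :=
  (contDiffOn_const (c := c)).smul hf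

end matrixaux

variable {E : Type*} [NormedAddCommGroup E] [InnerProductSpace ℝ E] [FiniteDimensional ℝ E]
  {X : Type*} [EMetricSpace X] [ChartedSpace E X]
  [IsManifold 𝓘(ℝ, E) ∞ X] [RiemannianBundle (fun x : X => TangentSpace 𝓘(ℝ, E) x)]
  [IsContMDiffRiemannianBundle 𝓘(ℝ, E) ∞ E (fun x : X => TangentSpace 𝓘(ℝ, E) x)] {p : ℕ}

/-- the Gram matrix of the coordinate frame of the chart around `x₀` at `y`. -/
def gramM (x₀ : X) (y : E) : Matrix (Fin (Module.finrank ℝ E)) (Fin (Module.finrank ℝ E)) ℝ :=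
  Matrix.of fun k l => inner ℝ
    (mfderiv 𝓘(ℝ, E) 𝓘(ℝ, E) (ch E x₀).symm y (stdOrthonormalBasis ℝ E k) :
      TangentSpace 𝓘(ℝ, E) ((ch E x₀).symm y))
    (mfderiv 𝓘(ℝ, E) 𝓘(ℝ, E) (ch E x₀).symm y (stdOrthonormalBasis ℝ E l) :
      TangentSpace 𝓘(ℝ, E) ((ch E x₀).symm y))

/-- the density of the Riemannian measure. -/
def rho (x₀ : X) (y : E) : ℝ := Real.sqrt (gramM x₀ y).det

omit [FiniteDimensional ℝ E] [RiemannianBundle (fun x : X => TangentSpace 𝓘(ℝ, E) x)]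
  [IsContMDiffRiemannianBundle 𝓘(ℝ, E) ∞ E (fun x : X => TangentSpace 𝓘(ℝ, E) x)] in
theorem contMDiffOn_frame (x₀ : X) (v : E) :
    ContMDiffOn 𝓘(ℝ, E) 𝓘(ℝ, E).tangent ∞ (fun y : E => (⟨(ch E x₀).symm y,
      mfderiv 𝓘(ℝ, E) 𝓘(ℝ, E) (ch E x₀).symm y v⟩ : TangentBundle 𝓘(ℝ, E) X)) (ch E x₀).target := by
  have hop : IsOpen (ch E x₀).target := isOpen_extChartAt_target (I := 𝓘(ℝ, E)) x₀
  have : IsManifold 𝓘(ℝ, E) 1 X := IsManifold.of_le (n := ∞) (by exact_mod_cast le_top)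
  have h1 := (contMDiffOn_extChartAt_symm (I := 𝓘(ℝ, E)) (n := ∞) x₀).contMDiffOn_tangentMapWithin
    (m := ∞) le_rfl hop.uniqueMDiffOn
  have h2 : ContMDiff 𝓘(ℝ, E) 𝓘(ℝ, E).tangent ∞
        (fun y : E => (⟨y, v⟩ : TangentBundle 𝓘(ℝ, E) E)) := by
      intro y
      exact (contMDiffAt_vectorSpace_iff_contDiffAt (V := fun _ => v)).2 contDiffAt_const
  have h3 := h1.comp h2.contMDiffOn (s := (ch E x₀).target) (fun y hy => hy)
  refine h3.congr fun y hy => ?_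
  simp only [Function.comp, tangentMapWithin]
  rw [mfderivWithin_of_isOpen hop hy]

theorem contDiffOn_gramM (x₀ : X) (k l : Fin (Module.finrank ℝ E)) :
    ContDiffOn ℝ ∞ (fun y => gramM x₀ y k l) (ch E x₀).target := by
  have key := ContMDiffOn.inner_bundle (E := fun x : X => TangentSpace 𝓘(ℝ, E) x) (F := E)
    (IB := 𝓘(ℝ, E)) (IM := 𝓘(ℝ, E)) (n := ∞) (b := fun y : E => (ch E x₀).symm y)
    (v := fun y => mfderiv 𝓘(ℝ, E) 𝓘(ℝ, E) (ch E x₀).symm y (stdOrthonormalBasis ℝ E k))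
    (w := fun y => mfderiv 𝓘(ℝ, E) 𝓘(ℝ, E) (ch E x₀).symm y (stdOrthonormalBasis ℝ E l))
    (contMDiffOn_frame x₀ _) (contMDiffOn_frame x₀ _)
  exact contMDiffOn_iff_contDiffOn.1 key

/-- the inverse of `Dψ(y)`. -/
def dch (x₀ : X) (y : E) : TangentSpace 𝓘(ℝ, E) ((ch E x₀).symm y) →L[ℝ] E :=
  mfderiv 𝓘(ℝ, E) 𝓘(ℝ, E) (ch E x₀) ((ch E x₀).symm y)

theorem gram_eq_tmul (x₀ : X) (y : E) :
    ∃ M : Matrix (Fin (Module.finrank ℝ E)) (Fin (Module.finrank ℝ E)) ℝ,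
      gramM x₀ y = M.transpose * M := by
  have hn : Module.finrank ℝ (TangentSpace 𝓘(ℝ, E) ((ch E x₀).symm y)) = Module.finrank ℝ E := rfl
  set b : OrthonormalBasis (Fin (Module.finrank ℝ E)) ℝ (TangentSpace 𝓘(ℝ, E) ((ch E x₀).symm y)) :=
    stdOrthonormalBasis ℝ (TangentSpace 𝓘(ℝ, E) ((ch E x₀).symm y))
  refine ⟨Matrix.of fun i k => inner ℝ (b i) (mfderiv 𝓘(ℝ, E) 𝓘(ℝ, E) (ch E x₀).symm y
    (stdOrthonormalBasis ℝ E k)), ?_⟩
  ext k l
  rw [Matrix.mul_apply]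
  simp only [Matrix.transpose_apply, Matrix.of_apply, gramM]
  rw [← b.sum_inner_mul_inner]
  refine Finset.sum_congr rfl fun i _ => ?_
  rw [real_inner_comm]

theorem gramM_det_pos (x₀ : X) {y : E} (hy : y ∈ (ch E x₀).target) : 0 < (gramM x₀ y).det := by
  obtain ⟨M, hM⟩ := gram_eq_tmul x₀ y
  have h0 : (gramM x₀ y).det ≠ 0 := by
    have hn : Module.finrank ℝ (TangentSpace 𝓘(ℝ, E) ((ch E x₀).symm y)) = Module.finrank ℝ E := rfl
    exact (ainner_frame (V := TangentSpace 𝓘(ℝ, E) ((ch E x₀).symm y)) (p := 0)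
      (stdOrthonormalBasis ℝ E)
      (mfderiv 𝓘(ℝ, E) 𝓘(ℝ, E) (ch E x₀).symm y) (mfderiv_ch_symm_surjective x₀ hy) hn
      0 0 (gramM x₀ y) (fun k l => rfl)).1
  rw [hM, Matrix.det_mul, Matrix.det_transpose] at h0 ⊢
  have h1 : M.det ≠ 0 := fun h => h0 (by rw [h, mul_zero])
  exact mul_self_pos.2 h1

theorem rho_pos (x₀ : X) {y : E} (hy : y ∈ (ch E x₀).target) : 0 < rho x₀ y :=
  Real.sqrt_pos.2 (gramM_det_pos x₀ hy)

theorem contDiffOn_rho (x₀ : X) : ContDiffOn ℝ ∞ (rho x₀) (ch E x₀).target :=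
  (contDiffOn_mdet (contDiffOn_gramM x₀)).sqrt fun _ hy => (gramM_det_pos x₀ hy).ne'

/-- `|det A|` is the density at `y₀`. -/
theorem abs_det_eq_rho (x₀ : X) {y₀ : E} (_hy₀ : y₀ ∈ (ch E x₀).target) {A : E ≃L[ℝ] E}
    (hA : ∀ v : E, ‖A v‖ = ‖(mfderiv 𝓘(ℝ, E) 𝓘(ℝ, E) (ch E x₀).symm y₀ v :
      TangentSpace 𝓘(ℝ, E) ((ch E x₀).symm y₀))‖) :
    |LinearMap.det (A : E →ₗ[ℝ] E)| = rho x₀ y₀ := by
  classical
  set e := stdOrthonormalBasis ℝ E with he
  set D : E →L[ℝ] TangentSpace 𝓘(ℝ, E) ((ch E x₀).symm y₀) :=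
    mfderiv 𝓘(ℝ, E) 𝓘(ℝ, E) (ch E x₀).symm y₀ with hD
  have hin : ∀ v w : E, inner ℝ (A v) (A w) = inner ℝ (D v) (D w) := by
    intro v w
    have h1 := hA (v + w)
    have h2 := hA v
    have h3 := hA w
    have h4 : ‖A v + A w‖ = ‖D v + D w‖ := by
      rw [← map_add, ← map_add]; exact h1
    rw [real_inner_eq_norm_add_mul_self_sub_norm_mul_self_sub_norm_mul_self_div_two,
      real_inner_eq_norm_add_mul_self_sub_norm_mul_self_sub_norm_mul_self_div_two, h4, h2, h3]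
    rfl
  have hG : gramM x₀ y₀ = (LinearMap.toMatrix e.toBasis e.toBasis (A : E →ₗ[ℝ] E)).transpose *
      (LinearMap.toMatrix e.toBasis e.toBasis (A : E →ₗ[ℝ] E)) := by
    ext k l
    rw [Matrix.mul_apply]
    simp only [Matrix.transpose_apply, LinearMap.toMatrix_apply, gramM, Matrix.of_apply]
    refine (hin _ _).symm.trans ?_
    rw [← e.sum_inner_mul_inner]
    refine Finset.sum_congr rfl fun i _ => ?_
    have h5 : ∀ m, (e.toBasis.repr ((A : E →ₗ[ℝ] E) (e.toBasis m))) i = inner ℝ (e i) (A (e m)) := by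
      intro m
      rw [e.coe_toBasis, e.coe_toBasis_repr_apply, e.repr_apply_apply]
      rfl
    rw [h5, h5, real_inner_comm]
  rw [rho, hG, Matrix.det_mul, Matrix.det_transpose, LinearMap.det_toMatrix, Real.sqrt_mul_self_eq_abs]


/-- the pointwise product of forms in the chart: the functional `β ↦ ⟨α, β⟩_y` on `Λ^q E^*`. -/
def bilq (x₀ : X) (q : ℕ) (y : E) (α : E [⋀^Fin q]→L[ℝ] ℝ) : (E [⋀^Fin q]→L[ℝ] ℝ) →L[ℝ] ℝ :=
  ((q.factorial : ℝ))⁻¹ • ∑ r : Fin q → Fin (Module.finrank ℝ E),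
    ∑ s : Fin q → Fin (Module.finrank ℝ E), ((∏ k, (gramM x₀ y)⁻¹ (r k) (s k)) *
      α (fun k => stdOrthonormalBasis ℝ E (r k))) •
        (ContinuousAlternatingMap.apply ℝ E ℝ (fun k => stdOrthonormalBasis ℝ E (s k)))

theorem bilq_apply (x₀ : X) (q : ℕ) (y : E) (α β : E [⋀^Fin q]→L[ℝ] ℝ) :
    bilq x₀ q y α β = ((q.factorial : ℝ))⁻¹ * ∑ r : Fin q → Fin (Module.finrank ℝ E),
    ∑ s : Fin q → Fin (Module.finrank ℝ E), (∏ k, (gramM x₀ y)⁻¹ (r k) (s k)) *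
      (α (fun k => stdOrthonormalBasis ℝ E (r k)) *
        β (fun k => stdOrthonormalBasis ℝ E (s k))) := by
  unfold bilq
  rw [_root_.smul_apply, _root_.sum_apply, smul_eq_mul]
  congr 1
  refine Finset.sum_congr rfl fun r _ => ?_
  rw [_root_.sum_apply]
  refine Finset.sum_congr rfl fun s _ => ?_
  rw [_root_.smul_apply, smul_eq_mul, mul_assoc]
  rfl

theorem ainner_eq_bilq (x₀ : X) {y : E} (hy : y ∈ (ch E x₀).target)
    (α β : TangentSpace 𝓘(ℝ, E) ((ch E x₀).symm y) [⋀^Fin p]→L[ℝ] ℝ) :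
    ainner α β = bilq x₀ p y
      (α.compContinuousLinearMap (mfderiv 𝓘(ℝ, E) 𝓘(ℝ, E) (ch E x₀).symm y))
      (β.compContinuousLinearMap (mfderiv 𝓘(ℝ, E) 𝓘(ℝ, E) (ch E x₀).symm y)) := by
  have hn : Module.finrank ℝ (TangentSpace 𝓘(ℝ, E) ((ch E x₀).symm y)) = Module.finrank ℝ E := rfl
  rw [bilq_apply]
  exact (ainner_frame (V := TangentSpace 𝓘(ℝ, E) ((ch E x₀).symm y)) (stdOrthonormalBasis ℝ E)
      (mfderiv 𝓘(ℝ, E) 𝓘(ℝ, E) (ch E x₀).symm y) (mfderiv_ch_symm_surjective x₀ hy) hn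
      α β (gramM x₀ y) (fun k l => rfl)).2

theorem pin_eq_bilq (x₀ : X) {y : E} (hy : y ∈ (ch E x₀).target) (α β : PForm E X p) :
    pin α β ((ch E x₀).symm y) = bilq x₀ p y (inChart α x₀ y) (inChart β x₀ y) :=
  ainner_eq_bilq x₀ hy _ _

theorem contDiffOn_bilq (x₀ : X) {q : ℕ} {α : E → E [⋀^Fin q]→L[ℝ] ℝ}
    (hα : ContDiffOn ℝ ∞ α (ch E x₀).target) :
    ContDiffOn ℝ ∞ (fun y => bilq x₀ q y (α y)) (ch E x₀).target := by
  have h0 : ∀ r s : Fin q → Fin (Module.finrank ℝ E), ContDiffOn ℝ ∞ (fun y =>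
      (∏ k, (gramM x₀ y)⁻¹ (r k) (s k)) * α y (fun k => stdOrthonormalBasis ℝ E (r k)))
      (ch E x₀).target := by
    intro r s
    refine ContDiffOn.mul ?_ ?_
    · exact contDiffOn_prod fun k _ => contDiffOn_minv (contDiffOn_gramM x₀)
        (fun y hy => (gramM_det_pos x₀ hy).ne') _ _
    · have h := (ContinuousAlternatingMap.apply ℝ E ℝ
        (fun k => stdOrthonormalBasis ℝ E (r k))).contDiff (n := ∞)
      exact h.comp_contDiffOn hα
  have h1 : ∀ r s : Fin q → Fin (Module.finrank ℝ E), ContDiffOn ℝ ∞ (fun y =>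
      ((∏ k, (gramM x₀ y)⁻¹ (r k) (s k)) * α y (fun k => stdOrthonormalBasis ℝ E (r k))) •
        (ContinuousAlternatingMap.apply ℝ E ℝ (fun k => stdOrthonormalBasis ℝ E (s k))))
      (ch E x₀).target := by
    intro r s
    exact contDiffOn_smul_clm (h0 r s) _
  have h2 : ContDiffOn ℝ ∞ (fun y => ∑ r : Fin q → Fin (Module.finrank ℝ E),
      ∑ s : Fin q → Fin (Module.finrank ℝ E),
      ((∏ k, (gramM x₀ y)⁻¹ (r k) (s k)) * α y (fun k => stdOrthonormalBasis ℝ E (r k))) •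
        (ContinuousAlternatingMap.apply ℝ E ℝ (fun k => stdOrthonormalBasis ℝ E (s k))))
      (ch E x₀).target := ContDiffOn.sum fun r _ => ContDiffOn.sum fun s _ => h1 r s
  exact contDiffOn_const_smul_clm h2 _

theorem gramM_transpose (x₀ : X) (y : E) : (gramM x₀ y).transpose = gramM x₀ y := by
  ext k l
  simp only [Matrix.transpose_apply, gramM, Matrix.of_apply]
  exact real_inner_comm _ _

theorem gramM_inv_symm (x₀ : X) (y : E) (k l : Fin (Module.finrank ℝ E)) :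
    (gramM x₀ y)⁻¹ k l = (gramM x₀ y)⁻¹ l k := by
  have h : ((gramM x₀ y)⁻¹).transpose = (gramM x₀ y)⁻¹ := by
    rw [Matrix.transpose_nonsing_inv, gramM_transpose]
  conv_lhs => rw [← h]
  rfl

theorem bilq_symm' (x₀ : X) {q : ℕ} (y : E)
    (α β : E [⋀^Fin q]→L[ℝ] ℝ) : bilq x₀ q y α β = bilq x₀ q y β α := by
  rw [bilq_apply, bilq_apply]
  congr 1
  rw [Finset.sum_comm]
  refine Finset.sum_congr rfl fun r _ => Finset.sum_congr rfl fun s _ => ?_
  rw [mul_comm (α _)]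
  congr 1
  refine Finset.prod_congr rfl fun k _ => ?_
  exact gramM_inv_symm x₀ y _ _

theorem bilq_symm (x₀ : X) {q : ℕ} {y : E} (_hy : y ∈ (ch E x₀).target)
    (α β : E [⋀^Fin q]→L[ℝ] ℝ) : bilq x₀ q y α β = bilq x₀ q y β α := bilq_symm' x₀ y α β

omit [FiniteDimensional ℝ E] in
theorem ainner_self_pos {V : Type*} [NormedAddCommGroup V] [InnerProductSpace ℝ V]
    [FiniteDimensional ℝ V] {q : ℕ} {α : V [⋀^Fin q]→L[ℝ] ℝ} (hα : α ≠ 0) : 0 < ainner α α := by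
  rcases (ainner_self_nonneg α).lt_or_eq with h | h
  · exact h
  exfalso
  apply hα
  set e := stdOrthonormalBasis ℝ V with he
  have h1 : ∑ i : Fin q → Fin (Module.finrank ℝ V), α (fun k => e (i k)) * α (fun k => e (i k))
      = 0 := by
    unfold ainner at h
    rcases mul_eq_zero.1 h.symm with h2 | h2
    · exact absurd h2 (inv_ne_zero (by exact_mod_cast (Nat.factorial_pos q).ne'))
    · exact h2
  have h2 : ∀ i : Fin q → Fin (Module.finrank ℝ V), α (fun k => e (i k)) = 0 := by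
    intro i
    have h3 := (Finset.sum_eq_zero_iff_of_nonneg
      (fun i _ => mul_self_nonneg (α (fun k => e (i k))))).1 h1 i (Finset.mem_univ _)
    exact mul_self_eq_zero.1 h3
  ext v
  have hb : ∀ i : Fin q, v i = ∑ k, inner ℝ (e k) (v i) • e k := fun i => (e.sum_repr' (v i)).symm
  have h3 := alt_expand α e v (fun k i => inner ℝ (e k) (v i)) hb id
  simp only [id] at h3
  rw [h3]
  simp [h2]

/-- positive definite. -/
theorem bilq_pos (x₀ : X) {q : ℕ} {y : E} (hy : y ∈ (ch E x₀).target)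
    {α : E [⋀^Fin q]→L[ℝ] ℝ} (hα : α ≠ 0) : 0 < bilq x₀ q y α α := by
  set β : TangentSpace 𝓘(ℝ, E) ((ch E x₀).symm y) [⋀^Fin q]→L[ℝ] ℝ :=
    α.compContinuousLinearMap (mfderiv 𝓘(ℝ, E) 𝓘(ℝ, E) (ch E x₀) ((ch E x₀).symm y)) with hβ
  have h1 : β.compContinuousLinearMap (mfderiv 𝓘(ℝ, E) 𝓘(ℝ, E) (ch E x₀).symm y) = α := by
    ext v
    have h2 : (fun i => mfderiv 𝓘(ℝ, E) 𝓘(ℝ, E) (ch E x₀) ((ch E x₀).symm y)
      (mfderiv 𝓘(ℝ, E) 𝓘(ℝ, E) (ch E x₀).symm y (v i))) = v := by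
      funext i
      exact mfderiv_ch_comp hy (v i)
    exact congrArg α h2
  have h2 : β ≠ 0 := by
    intro h
    apply hα
    rw [← h1, h]
    rfl
  have h3 := ainner_self_pos h2
  have h4 : ainner β β = bilq x₀ q y α α := (ainner_eq_bilq x₀ hy β β).trans
    (congrArg₂ (fun a b => bilq x₀ q y a b) h1 h1)
  rw [h4] at h3
  exact h3

theorem finite_alt (E : Type*) [NormedAddCommGroup E] [InnerProductSpace ℝ E]
    [FiniteDimensional ℝ E] (q : ℕ) : FiniteDimensional ℝ (E [⋀^Fin q]→L[ℝ] ℝ) := by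
  let f : (E [⋀^Fin q]→L[ℝ] ℝ) →ₗ[ℝ] ((Fin q → Fin (Module.finrank ℝ E)) → ℝ) :=
    { toFun := fun α r => α (fun k => stdOrthonormalBasis ℝ E (r k))
      map_add' := fun _ _ => rfl
      map_smul' := fun _ _ => rfl }
  refine Module.Finite.of_injective f ?_
  rw [← LinearMap.ker_eq_bot, LinearMap.ker_eq_bot']
  intro α hα
  set e := stdOrthonormalBasis ℝ E with he
  have h2 : ∀ i : Fin q → Fin (Module.finrank ℝ E), α (fun k => e (i k)) = 0 :=
    fun i => congrFun hα i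
  ext v
  have hb : ∀ i : Fin q, v i = ∑ k, inner ℝ (e k) (v i) • e k := fun i => (e.sum_repr' (v i)).symm
  have h3 := alt_expand α e v (fun k i => inner ℝ (e k) (v i)) hb id
  simp only [id] at h3
  rw [h3]
  simp [h2]

/-- the solution `c` of `⟨·, c⟩_y = H(y)`, smooth in `y` (take a basis of `Λ^q E^*` and the inverse
of the Gram matrix of `bilq`). -/
theorem exists_bilq_solve (x₀ : X) {q : ℕ} {H : E → (E [⋀^Fin q]→L[ℝ] ℝ) →L[ℝ] ℝ}
    (hH : ContDiffOn ℝ ∞ H (ch E x₀).target) :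
    ∃ c : E → E [⋀^Fin q]→L[ℝ] ℝ, ContDiffOn ℝ ∞ c (ch E x₀).target ∧
      (∀ y ∈ (ch E x₀).target, ∀ α, bilq x₀ q y α (c y) = H y α) ∧
      ∀ y ∈ (ch E x₀).target, H y = 0 → c y = 0 := by
  classical
  have := finite_alt E q
  set b := Module.finBasis ℝ (E [⋀^Fin q]→L[ℝ] ℝ) with hb
  set M : E → Matrix (Fin (Module.finrank ℝ (E [⋀^Fin q]→L[ℝ] ℝ)))
      (Fin (Module.finrank ℝ (E [⋀^Fin q]→L[ℝ] ℝ))) ℝ := fun y =>
    Matrix.of fun i j => bilq x₀ q y (b i) (b j) with hM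
  have hMs : ∀ i j, ContDiffOn ℝ ∞ (fun y => M y i j) (ch E x₀).target := by
    intro i j
    exact (contDiffOn_bilq x₀ (α := fun _ => b i) contDiffOn_const).clm_apply contDiffOn_const
  have hMd : ∀ y ∈ (ch E x₀).target, (M y).det ≠ 0 := by
    intro y hy h0
    obtain ⟨v, hv, hv0⟩ := Matrix.exists_mulVec_eq_zero_iff.2 h0
    have h1 : ∑ j, v j • b j ≠ 0 := by
      intro h2
      apply hv
      funext j
      exact (Fintype.linearIndependent_iff.1 b.linearIndependent) v h2 j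
    have h2 := bilq_pos x₀ hy h1
    have h3 : bilq x₀ q y (∑ j, v j • b j) (∑ j, v j • b j) = ∑ i, v i * (Matrix.mulVec (M y) v) i := by
      conv_lhs => rw [map_sum]
      refine Finset.sum_congr rfl fun i _ => ?_
      rw [map_smul, smul_eq_mul, bilq_symm' x₀ y _ (b i), map_sum]
      congr 1
      rw [Matrix.mulVec, dotProduct]
      refine Finset.sum_congr rfl fun j _ => ?_
      rw [map_smul, smul_eq_mul, mul_comm]
      rfl
    rw [h3, hv0] at h2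
    simp at h2
  set c : E → E [⋀^Fin q]→L[ℝ] ℝ := fun y =>
    ∑ i, (Matrix.mulVec (M y)⁻¹ (fun j => H y (b j))) i • b i with hc
  refine ⟨c, ?_, ?_, ?_⟩
  · refine ContDiffOn.sum fun i _ => ContDiffOn.smul_const ?_ _
    simp only [Matrix.mulVec, dotProduct]
    refine ContDiffOn.sum fun j _ => ContDiffOn.mul (contDiffOn_minv hMs hMd i j) ?_
    exact hH.clm_apply contDiffOn_const
  · intro y hy α
    have h1 : ∀ i, bilq x₀ q y (b i) (c y) = H y (b i) := by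
      intro i
      rw [hc]
      simp only [map_sum, map_smul, smul_eq_mul]
      have h2 : Matrix.mulVec (M y) (Matrix.mulVec (M y)⁻¹ (fun j => H y (b j))) = fun j => H y (b j) := by
        rw [Matrix.mulVec_mulVec, Matrix.mul_nonsing_inv _ (isUnit_iff_ne_zero.2 (hMd y hy)),
          Matrix.one_mulVec]
      have h3 := congrFun h2 i
      rw [← h3]
      conv_rhs => rw [Matrix.mulVec, dotProduct]
      refine Finset.sum_congr rfl fun j _ => ?_
      rw [mul_comm]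
      rfl
    have h2 : (bilq x₀ q y (c y) : (E [⋀^Fin q]→L[ℝ] ℝ) →L[ℝ] ℝ).toLinearMap =
        (H y).toLinearMap := by
      refine b.ext fun i => ?_
      exact (bilq_symm' x₀ y _ _).trans (h1 i)
    rw [bilq_symm' x₀ y]
    exact congrArg (fun f : (E [⋀^Fin q]→L[ℝ] ℝ) →ₗ[ℝ] ℝ => f α) h2
  · intro y hy h0
    rw [hc]
    simp only [h0]
    have h1 : (fun j => (0 : (E [⋀^Fin q]→L[ℝ] ℝ) →L[ℝ] ℝ) (b j)) =
      (0 : Fin (Module.finrank ℝ (E [⋀^Fin q]→L[ℝ] ℝ)) → ℝ) := rfl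
    rw [h1, Matrix.mulVec_zero]
    simp

end Pool.Agent.ZSp
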