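import Pool.Agent.Work.MP_058ed1_gt.D.Lip
import Pool.Agent.Work.MP_058ed1_gt.D.Gram

/-!
# Cell DEL, module DENS: the Riemannian measure in a chart has the density `rho`

`vol E X` is the Hausdorff measure of dimension `dim E`; the reference measure on `E` is the
Hausdorff measure of the same dimension (a Haar measure).
-/

open scoped Manifold ContDiff Topology Bundle ENNReal NNReal
open Set MeasureTheory Bundle Filter

set_option linter.unusedSectionVars false

noncomputable section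

namespace Pool.Agent.ZSp

variable {E : Type*} [NormedAddCommGroup E] [InnerProductSpace ℝ E] [FiniteDimensional ℝ E]
  [MeasurableSpace E] [BorelSpace E]
  {X : Type*} [EMetricSpace X] [ChartedSpace E X]
  [IsManifold 𝓘(ℝ, E) ∞ X] [RiemannianBundle (fun x : X => TangentSpace 𝓘(ℝ, E) x)]
  [IsContMDiffRiemannianBundle 𝓘(ℝ, E) ∞ E (fun x : X => TangentSpace 𝓘(ℝ, E) x)]
  [IsRiemannianManifold 𝓘(ℝ, E) X] [MeasurableSpace X] [BorelSpace X] {p : ℕ}

/-- local comparison of `vol` with `rho • μH`. -/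
theorem local_compare (x₀ : X) {y₀ : E} (hy₀ : y₀ ∈ (ch E x₀).target) {ε : ℝ} (hε : 0 < ε) :
    ∃ V ∈ 𝓝 y₀, IsOpen V ∧ V ⊆ (ch E x₀).target ∧ ∀ s : Set E, MeasurableSet s → s ⊆ V →
      vol E X ((ch E x₀).symm '' s) ≤ ENNReal.ofReal ((1 + ε) ^ (Module.finrank ℝ E + 1)) *
        ∫⁻ y in s, ENNReal.ofReal (rho x₀ y)
          ∂(Measure.hausdorffMeasure (Module.finrank ℝ E : ℝ) : Measure E) ∧
      ∫⁻ y in s, ENNReal.ofReal (rho x₀ y)
          ∂(Measure.hausdorffMeasure (Module.finrank ℝ E : ℝ) : Measure E) ≤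
        ENNReal.ofReal ((1 + ε) ^ (Module.finrank ℝ E + 1)) *
          vol E X ((ch E x₀).symm '' s) := by
  obtain ⟨A, hA⟩ := exists_linear_iso x₀ hy₀
  obtain ⟨V, hV, hVo, hVt, hVe⟩ := almost_isometry x₀ hy₀ hA hε
  set n := Module.finrank ℝ E with hn
  set c : ℝ≥0 := Real.toNNReal (1 + ε) with hc
  have hcr : (c : ℝ) = 1 + ε := Real.coe_toNNReal _ (by linarith)
  have hcE : ENNReal.ofReal (1 + ε) = (c : ℝ≥0∞) := rfl
  have hcn : ENNReal.ofReal ((1 + ε) ^ (n + 1)) = (c : ℝ≥0∞) ^ (n + 1) := by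
    rw [ENNReal.ofReal_pow (by linarith), hcE]
  have hdet := abs_det_eq_rho x₀ hy₀ hA
  have hρ0 : 0 < rho x₀ y₀ := rho_pos x₀ hy₀
  have hρc : ContinuousAt (rho x₀) y₀ :=
    ((contDiffOn_rho x₀).contDiffAt (ch_target_nhds hy₀)).continuousAt
  have h1 : ∀ᶠ y in 𝓝 y₀, rho x₀ y < (1 + ε) * rho x₀ y₀ := by
    refine hρc.eventually (gt_mem_nhds ?_)
    nlinarith
  have h2 : ∀ᶠ y in 𝓝 y₀, rho x₀ y₀ < (1 + ε) * rho x₀ y := by
    have h3 : ContinuousAt (fun y => (1 + ε) * rho x₀ y) y₀ := continuousAt_const.mul hρc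
    refine h3.eventually (lt_mem_nhds ?_)
    nlinarith
  obtain ⟨V', hV'sub, hV'o, hV'm⟩ := mem_nhds_iff.1 (h1.and h2)
  refine ⟨V ∩ V', inter_mem hV (hV'o.mem_nhds hV'm), hVo.inter hV'o, inter_subset_left.trans hVt,
    fun s hs hsV => ?_⟩
  set μ : Measure E := (Measure.hausdorffMeasure (n : ℝ) : Measure E) with hμ
  have hμhaar : μ.IsAddHaarMeasure := by
    rw [hμ, hn]
    infer_instance
  have hsV1 : s ⊆ V := hsV.trans inter_subset_left
  have hsV2 : ∀ y ∈ s, rho x₀ y < (1 + ε) * rho x₀ y₀ ∧ rho x₀ y₀ < (1 + ε) * rho x₀ y :=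
    fun y hy => hV'sub (hsV hy).2
  have hn0 : (0 : ℝ) ≤ (n : ℝ) := Nat.cast_nonneg _
  have hAs : μ (A '' s) = ENNReal.ofReal (rho x₀ y₀) * μ s := by
    have h3 := Measure.addHaar_image_linearMap μ (A : E →ₗ[ℝ] E) s
    rw [hdet] at h3
    exact h3
  -- first inequality for the measures
  have hi1 : vol E X ((ch E x₀).symm '' s) ≤ (c : ℝ≥0∞) ^ n * μ (A '' s) := by
    have h3 : LipschitzOnWith c (fun w => (ch E x₀).symm (A.symm w)) (A '' s) := by
      rintro _ ⟨z, hz, rfl⟩ _ ⟨z', hz', rfl⟩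
      simp only [A.symm_apply_apply]
      exact (hVe z (hsV1 hz) z' (hsV1 hz')).1
    have h4 := h3.hausdorffMeasure_image_le hn0
    have h5 : (fun w => (ch E x₀).symm (A.symm w)) '' (A '' s) = (ch E x₀).symm '' s := by
      rw [image_image]
      simp only [A.symm_apply_apply]
    rw [h5, ENNReal.rpow_natCast] at h4
    exact h4
  have hi2 : μ (A '' s) ≤ (c : ℝ≥0∞) ^ n * vol E X ((ch E x₀).symm '' s) := by
    have h3 : LipschitzOnWith c (fun x => A (ch E x₀ x)) ((ch E x₀).symm '' s) := by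
      rintro _ ⟨z, hz, rfl⟩ _ ⟨z', hz', rfl⟩
      simp only [(ch E x₀).right_inv (hVt (hsV1 hz)), (ch E x₀).right_inv (hVt (hsV1 hz'))]
      exact (hVe z (hsV1 hz) z' (hsV1 hz')).2
    have h4 := h3.hausdorffMeasure_image_le hn0
    have h5 : (fun x => A (ch E x₀ x)) '' ((ch E x₀).symm '' s) = A '' s := by
      rw [image_image]
      refine image_congr fun z hz => ?_
      rw [(ch E x₀).right_inv (hVt (hsV1 hz))]
    rw [h5, ENNReal.rpow_natCast] at h4
    exact h4
  have hj1 : ENNReal.ofReal (rho x₀ y₀) * μ s ≤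
      (c : ℝ≥0∞) * ∫⁻ y in s, ENNReal.ofReal (rho x₀ y) ∂μ := by
    rw [← lintegral_const_mul' _ _ ENNReal.coe_ne_top, ← setLIntegral_const]
    refine setLIntegral_mono' hs fun y hy => ?_
    rw [← hcE, ← ENNReal.ofReal_mul (by linarith)]
    exact ENNReal.ofReal_le_ofReal (hsV2 y hy).2.le
  have hj2 : ∫⁻ y in s, ENNReal.ofReal (rho x₀ y) ∂μ ≤
      (c : ℝ≥0∞) * (ENNReal.ofReal (rho x₀ y₀) * μ s) := by
    rw [← mul_assoc, ← hcE, ← ENNReal.ofReal_mul (by linarith), ← setLIntegral_const]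
    exact setLIntegral_mono' hs fun y hy => ENNReal.ofReal_le_ofReal (hsV2 y hy).1.le
  rw [hcn]
  constructor
  · calc vol E X ((ch E x₀).symm '' s) ≤ (c : ℝ≥0∞) ^ n * μ (A '' s) := hi1
      _ ≤ (c : ℝ≥0∞) ^ n * ((c : ℝ≥0∞) * ∫⁻ y in s, ENNReal.ofReal (rho x₀ y) ∂μ) := by
          rw [hAs]
          gcongr
      _ = _ := by rw [pow_succ, mul_assoc]
  · calc ∫⁻ y in s, ENNReal.ofReal (rho x₀ y) ∂μ
        ≤ (c : ℝ≥0∞) * (ENNReal.ofReal (rho x₀ y₀) * μ s) := hj2
      _ ≤ (c : ℝ≥0∞) * ((c : ℝ≥0∞) ^ n * vol E X ((ch E x₀).symm '' s)) := by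
          rw [← hAs]
          gcongr
      _ = _ := by rw [pow_succ, mul_comm ((c : ℝ≥0∞) ^ n) (c : ℝ≥0∞), mul_assoc]

omit [IsManifold 𝓘(ℝ, E) ∞ X] [RiemannianBundle (fun x : X => TangentSpace 𝓘(ℝ, E) x)]
  [IsContMDiffRiemannianBundle 𝓘(ℝ, E) ∞ E (fun x : X => TangentSpace 𝓘(ℝ, E) x)]
  [IsRiemannianManifold 𝓘(ℝ, E) X] in
theorem symm_image_inter (x₀ : X) (s : Set E) :
    (ch E x₀).symm '' (s ∩ (ch E x₀).target) = ch E x₀ ⁻¹' s ∩ (ch E x₀).source := by
  ext x
  constructor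
  · rintro ⟨z, ⟨hz, hzt⟩, rfl⟩
    refine ⟨?_, (ch E x₀).map_target hzt⟩
    rw [mem_preimage, (ch E x₀).right_inv hzt]
    exact hz
  · rintro ⟨hx, hxs⟩
    exact ⟨ch E x₀ x, ⟨hx, (ch E x₀).map_source hxs⟩, (ch E x₀).left_inv hxs⟩

omit [IsManifold 𝓘(ℝ, E) ∞ X] [RiemannianBundle (fun x : X => TangentSpace 𝓘(ℝ, E) x)]
  [IsContMDiffRiemannianBundle 𝓘(ℝ, E) ∞ E (fun x : X => TangentSpace 𝓘(ℝ, E) x)]
  [IsRiemannianManifold 𝓘(ℝ, E) X] in
theorem measurableSet_symm_image (x₀ : X) {s : Set E} (hs : MeasurableSet s)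
    (hst : s ⊆ (ch E x₀).target) : MeasurableSet ((ch E x₀).symm '' s) := by
  classical
  have hso : IsOpen (ch E x₀).source := isOpen_extChartAt_source x₀
  have h1 : Measurable ((ch E x₀).source.piecewise (ch E x₀) (fun _ => ch E x₀ x₀)) :=
    (continuousOn_extChartAt x₀).measurable_piecewise continuousOn_const hso.measurableSet
  have h2 : (ch E x₀).symm '' s =
      ((ch E x₀).source.piecewise (ch E x₀) (fun _ => ch E x₀ x₀)) ⁻¹' s ∩ (ch E x₀).source := by
    rw [show s = s ∩ (ch E x₀).target from (inter_eq_left.2 hst).symm, symm_image_inter]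
    ext x
    constructor
    · rintro ⟨hx, hxs⟩
      refine ⟨?_, hxs⟩
      rw [mem_preimage, piecewise_eq_of_mem _ _ _ hxs]
      exact ⟨hx, (ch E x₀).map_source hxs⟩
    · rintro ⟨hx, hxs⟩
      refine ⟨?_, hxs⟩
      rw [mem_preimage, piecewise_eq_of_mem _ _ _ hxs] at hx
      exact hx.1
  rw [h2]
  exact (h1 hs).inter hso.measurableSet

/-- the comparison with a factor `(1+ε)^(n+1)`, for all measurable sets. -/
theorem global_compare (x₀ : X) {s : Set E} (hs : MeasurableSet s) (hst : s ⊆ (ch E x₀).target)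
    {ε : ℝ} (hε : 0 < ε) :
    vol E X ((ch E x₀).symm '' s) ≤ ENNReal.ofReal ((1 + ε) ^ (Module.finrank ℝ E + 1)) *
        ∫⁻ y in s, ENNReal.ofReal (rho x₀ y)
          ∂(Measure.hausdorffMeasure (Module.finrank ℝ E : ℝ) : Measure E) ∧
      ∫⁻ y in s, ENNReal.ofReal (rho x₀ y)
          ∂(Measure.hausdorffMeasure (Module.finrank ℝ E : ℝ) : Measure E) ≤
        ENNReal.ofReal ((1 + ε) ^ (Module.finrank ℝ E + 1)) *
          vol E X ((ch E x₀).symm '' s) := by
  choose! V hV using fun y₀ (hy₀ : y₀ ∈ (ch E x₀).target) => local_compare (X := X) x₀ hy₀ hε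
  obtain ⟨t, hts, htc, htcov⟩ := TopologicalSpace.countable_cover_nhdsWithin (f := V)
    (s := (ch E x₀).target) (fun y hy => mem_nhdsWithin_of_mem_nhds (hV y hy).1)
  have htne : t.Nonempty := by
    have h1 := htcov (ch_self_mem_target x₀)
    simp only [mem_iUnion, exists_prop] at h1
    obtain ⟨y, hy, -⟩ := h1
    exact ⟨y, hy⟩
  obtain ⟨g, hg⟩ := htc.exists_eq_range htne
  have hgt : ∀ i, g i ∈ (ch E x₀).target := fun i => hts (hg ▸ mem_range_self i)
  set W : ℕ → Set E := fun i => V (g i) with hW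
  have hWo : ∀ i, IsOpen (W i) := fun i => (hV _ (hgt i)).2.1
  have hcov : (ch E x₀).target ⊆ ⋃ i, W i := by
    intro y hy
    have h1 := htcov hy
    simp only [mem_iUnion, exists_prop] at h1 ⊢
    obtain ⟨z, hz, hyz⟩ := h1
    rw [hg] at hz
    obtain ⟨i, rfl⟩ := hz
    exact ⟨i, hyz⟩
  set S : ℕ → Set E := fun i => s ∩ disjointed W i with hS
  have hSm : ∀ i, MeasurableSet (S i) := fun i =>
    hs.inter (MeasurableSet.disjointed (fun j => (hWo j).measurableSet) i)
  have hSW : ∀ i, S i ⊆ V (g i) := fun i => inter_subset_right.trans (disjointed_subset W i)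
  have hSt : ∀ i, S i ⊆ (ch E x₀).target := fun i => inter_subset_left.trans hst
  have hSd : Pairwise (Function.onFun Disjoint S) := fun i j hij =>
    (disjoint_disjointed W hij).mono inter_subset_right inter_subset_right
  have hSu : s = ⋃ i, S i := by
    rw [hS, ← inter_iUnion, iUnion_disjointed]
    exact (inter_eq_left.2 (hst.trans hcov)).symm
  have hinj : InjOn (ch E x₀).symm (ch E x₀).target := (ch E x₀).symm.injOn
  have hId : Pairwise (Function.onFun Disjoint fun i => (ch E x₀).symm '' S i) := by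
    intro i j hij
    exact (hSd hij).image hinj (hSt i) (hSt j)
  have hvol : vol E X ((ch E x₀).symm '' s) = ∑' i, vol E X ((ch E x₀).symm '' S i) := by
    conv_lhs => rw [hSu]
    rw [image_iUnion]
    exact measure_iUnion hId fun i => measurableSet_symm_image x₀ (hSm i) (hSt i)
  have hint : ∫⁻ y in s, ENNReal.ofReal (rho x₀ y)
          ∂(Measure.hausdorffMeasure (Module.finrank ℝ E : ℝ) : Measure E) =
      ∑' i, ∫⁻ y in S i, ENNReal.ofReal (rho x₀ y)
          ∂(Measure.hausdorffMeasure (Module.finrank ℝ E : ℝ) : Measure E) := by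
    conv_lhs => rw [hSu]
    exact lintegral_iUnion hSm hSd _
  constructor
  · rw [hvol, hint, ← ENNReal.tsum_mul_left]
    exact ENNReal.tsum_le_tsum fun i => ((hV _ (hgt i)).2.2.2 (S i) (hSm i) (hSW i)).1
  · rw [hvol, hint, ← ENNReal.tsum_mul_left]
    exact ENNReal.tsum_le_tsum fun i => ((hV _ (hgt i)).2.2.2 (S i) (hSm i) (hSW i)).2

theorem le_of_forall_factor {a b : ℝ≥0∞} {n : ℕ}
    (h : ∀ ε : ℝ, 0 < ε → a ≤ ENNReal.ofReal ((1 + ε) ^ (n + 1)) * b) : a ≤ b := by
  have h1 : Tendsto (fun ε : ℝ => (1 + ε) ^ (n + 1)) (𝓝[>] 0) (𝓝 1) := by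
    have h2 : ContinuousAt (fun ε : ℝ => (1 + ε) ^ (n + 1)) 0 := by fun_prop
    have h3 := h2.tendsto
    simp only [add_zero, one_pow] at h3
    exact h3.mono_left nhdsWithin_le_nhds
  have h4 : Tendsto (fun ε : ℝ => ENNReal.ofReal ((1 + ε) ^ (n + 1)) * b) (𝓝[>] 0) (𝓝 (1 * b)) := by
    refine ENNReal.Tendsto.mul_const ?_ (Or.inl one_ne_zero)
    have h5 := ENNReal.tendsto_ofReal h1
    rwa [ENNReal.ofReal_one] at h5
  rw [one_mul] at h4
  refine ge_of_tendsto h4 ?_
  filter_upwards [self_mem_nhdsWithin] with ε hε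
  exact h ε hε

theorem vol_symm_image (x₀ : X) {s : Set E} (hs : MeasurableSet s) (hst : s ⊆ (ch E x₀).target) :
    vol E X ((ch E x₀).symm '' s) = ∫⁻ y in s, ENNReal.ofReal (rho x₀ y)
      ∂(Measure.hausdorffMeasure (Module.finrank ℝ E : ℝ) : Measure E) :=
  le_antisymm (le_of_forall_factor fun _ hε => (global_compare x₀ hs hst hε).1)
    (le_of_forall_factor fun _ hε => (global_compare x₀ hs hst hε).2)

theorem aemeasurable_ch (x₀ : X) :
    AEMeasurable (ch E x₀) ((vol E X).restrict (ch E x₀).source) :=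
  (continuousOn_extChartAt x₀).aemeasurable (isOpen_extChartAt_source x₀).measurableSet

/-- the image of the Riemannian measure of the chart domain. -/
theorem map_vol (x₀ : X) : Measure.map (ch E x₀) ((vol E X).restrict (ch E x₀).source) =
    ((Measure.hausdorffMeasure (Module.finrank ℝ E : ℝ) : Measure E).restrict
      (ch E x₀).target).withDensity fun y => ENNReal.ofReal (rho x₀ y) := by
  have hsm : MeasurableSet (ch E x₀).source := (isOpen_extChartAt_source x₀).measurableSet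
  have htm : MeasurableSet (ch E x₀).target := (ch_target_open x₀).measurableSet
  ext s hs
  rw [Measure.map_apply_of_aemeasurable (aemeasurable_ch x₀) hs,
    Measure.restrict_apply₀' hsm.nullMeasurableSet, ← symm_image_inter,
    vol_symm_image x₀ (hs.inter htm) inter_subset_right, withDensity_apply _ hs,
    Measure.restrict_restrict hs]

/-- integration in a chart. -/
theorem integral_chart (x₀ : X) {f : X → ℝ} (hf : Continuous f)
    (h0 : ∀ x, x ∉ (ch E x₀).source → f x = 0) :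
    ∫ x, f x ∂(vol E X) = ∫ y in (ch E x₀).target, rho x₀ y * f ((ch E x₀).symm y)
      ∂(Measure.hausdorffMeasure (Module.finrank ℝ E : ℝ) : Measure E) := by
  have hsm : MeasurableSet (ch E x₀).source := (isOpen_extChartAt_source x₀).measurableSet
  have htm : MeasurableSet (ch E x₀).target := (ch_target_open x₀).measurableSet
  set μ : Measure E := (Measure.hausdorffMeasure (Module.finrank ℝ E : ℝ) : Measure E) with hμ
  have h1 : ∫ x, f x ∂(vol E X) = ∫ x in (ch E x₀).source, f x ∂(vol E X) := by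
    rw [setIntegral_eq_integral_of_forall_compl_eq_zero]
    exact fun x hx => h0 x hx
  have hρm : AEMeasurable (fun y => ENNReal.ofReal (rho x₀ y)) (μ.restrict (ch E x₀).target) :=
    ((contDiffOn_rho x₀).continuousOn.aemeasurable htm).ennreal_ofReal
  have hfc : ContinuousOn (fun y => f ((ch E x₀).symm y)) (ch E x₀).target :=
    hf.comp_continuousOn (continuousOn_extChartAt_symm x₀)
  have h2 : ∫ x in (ch E x₀).source, f x ∂(vol E X) =
      ∫ x in (ch E x₀).source, f ((ch E x₀).symm (ch E x₀ x)) ∂(vol E X) :=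
    setIntegral_congr_fun hsm fun x hx => by
      simp only [(ch E x₀).left_inv hx]
  have h3 : ∫ x in (ch E x₀).source, f ((ch E x₀).symm (ch E x₀ x)) ∂(vol E X) =
      ∫ y, f ((ch E x₀).symm y) ∂(Measure.map (ch E x₀) ((vol E X).restrict (ch E x₀).source)) := by
    have hm : AEStronglyMeasurable (fun y => f ((ch E x₀).symm y))
        (Measure.map (ch E x₀) ((vol E X).restrict (ch E x₀).source)) := by
      rw [map_vol]
      exact (hfc.aestronglyMeasurable htm).mono_ac (withDensity_absolutelyContinuous _ _)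
    exact (integral_map (f := fun y => f ((ch E x₀).symm y)) (aemeasurable_ch x₀) hm).symm
  rw [h1, h2, h3, map_vol, integral_withDensity_eq_integral_toReal_smul₀ hρm
    (Eventually.of_forall fun y => ENNReal.ofReal_lt_top)]
  refine setIntegral_congr_fun htm fun y hy => ?_
  simp only [smul_eq_mul]
  rw [ENNReal.toReal_ofReal (rho_pos x₀ hy).le]

end Pool.Agent.ZSp
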