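import Pool.Agent.Work.MP_058ed1_gt.G.FormsA
import Pool.Agent.Work.MP_058ed1_gt.G.Pw
import Pool.Agent.Work.MP_058ed1_gt.G.Meas

/-!
# Cell DEL, module LIP: a chart is almost an isometry near each point

`ψ = (ch E x₀).symm`.  Near `y₀` the map `ψ` is `(1+ε)`-bi-Lipschitz if `E` carries the norm
`v ↦ ‖Dψ(y₀) v‖ = ‖A v‖`.
-/

open scoped Manifold ContDiff Topology Bundle ENNReal NNReal
open Set MeasureTheory Bundle Filter Manifold

set_option linter.unusedSectionVars false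

noncomputable section

namespace Pool.Agent.ZSp

variable {E : Type*} [NormedAddCommGroup E] [InnerProductSpace ℝ E] [FiniteDimensional ℝ E]
  {X : Type*} [EMetricSpace X] [ChartedSpace E X]
  [IsManifold 𝓘(ℝ, E) ∞ X] [RiemannianBundle (fun x : X => TangentSpace 𝓘(ℝ, E) x)]
  [IsContMDiffRiemannianBundle 𝓘(ℝ, E) ∞ E (fun x : X => TangentSpace 𝓘(ℝ, E) x)]
  [IsRiemannianManifold 𝓘(ℝ, E) X]

/-- the derivative of the inverse of the chart, as a linear map. -/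
def Dsym (x₀ : X) (y : E) : E →ₗ[ℝ] TangentSpace 𝓘(ℝ, E) ((ch E x₀).symm y) where
  toFun v := mfderiv 𝓘(ℝ, E) 𝓘(ℝ, E) (ch E x₀).symm y v
  map_add' v w := map_add _ v w
  map_smul' r v := map_smul _ r v

/-- a linear isomorphism `A` of `E` with `‖A v‖ = ‖Dψ(y₀) v‖`. -/
theorem exists_linear_iso (x₀ : X) {y₀ : E} (hy₀ : y₀ ∈ (ch E x₀).target) :
    ∃ A : E ≃L[ℝ] E, ∀ v : E, ‖A v‖ = ‖(mfderiv 𝓘(ℝ, E) 𝓘(ℝ, E) (ch E x₀).symm y₀ v :
      TangentSpace 𝓘(ℝ, E) ((ch E x₀).symm y₀))‖ := by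
  set D : E →ₗ[ℝ] TangentSpace 𝓘(ℝ, E) ((ch E x₀).symm y₀) := Dsym x₀ y₀ with hD
  have hDi : Function.Injective D := by
    intro v w hvw
    have h1 : (mfderiv 𝓘(ℝ, E) 𝓘(ℝ, E) (ch E x₀).symm y₀ v : E) =
      mfderiv 𝓘(ℝ, E) 𝓘(ℝ, E) (ch E x₀).symm y₀ w := hvw
    have h2 := congrArg (fun u : E => (mfderiv 𝓘(ℝ, E) 𝓘(ℝ, E) (ch E x₀) ((ch E x₀).symm y₀) u : E)) h1
    have h3 := mfderiv_ch_comp hy₀ v
    have h4 := mfderiv_ch_comp hy₀ w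
    exact h3.symm.trans (h2.trans h4)
  have hfr : Module.finrank ℝ (TangentSpace 𝓘(ℝ, E) ((ch E x₀).symm y₀)) =
      Module.finrank ℝ E := rfl
  let b₁ := stdOrthonormalBasis ℝ (TangentSpace 𝓘(ℝ, E) ((ch E x₀).symm y₀))
  let b₂ := stdOrthonormalBasis ℝ E
  let J : TangentSpace 𝓘(ℝ, E) ((ch E x₀).symm y₀) ≃ₗᵢ[ℝ] E := b₁.equiv b₂ (Equiv.refl _)
  have hi : Function.Injective ((J.toLinearEquiv.toLinearMap).comp D) :=
    J.injective.comp hDi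
  refine ⟨(LinearEquiv.ofInjectiveEndo _ hi).toContinuousLinearEquiv, fun v => ?_⟩
  show ‖J (D v)‖ = _
  rw [J.norm_map]
  rfl

/-- the inner products of the frame in the chart, at the base point. -/
theorem inner_symm_eq (x₀ : X) {y₀ : E} {A : E ≃L[ℝ] E}
    (hA : ∀ v : E, ‖A v‖ = ‖(mfderiv 𝓘(ℝ, E) 𝓘(ℝ, E) (ch E x₀).symm y₀ v :
      TangentSpace 𝓘(ℝ, E) ((ch E x₀).symm y₀))‖) (v w : E) :
    inner ℝ (mfderiv 𝓘(ℝ, E) 𝓘(ℝ, E) (ch E x₀).symm y₀ v :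
        TangentSpace 𝓘(ℝ, E) ((ch E x₀).symm y₀))
      (mfderiv 𝓘(ℝ, E) 𝓘(ℝ, E) (ch E x₀).symm y₀ w :
        TangentSpace 𝓘(ℝ, E) ((ch E x₀).symm y₀)) = inner ℝ (A v) (A w) := by
  have hA' : ∀ v : E, ‖A v‖ = ‖Dsym x₀ y₀ v‖ := hA
  show inner ℝ (Dsym x₀ y₀ v) (Dsym x₀ y₀ w) = inner ℝ (A v) (A w)
  rw [real_inner_eq_norm_add_mul_self_sub_norm_mul_self_sub_norm_mul_self_div_two,
    real_inner_eq_norm_add_mul_self_sub_norm_mul_self_sub_norm_mul_self_div_two]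
  have h1 := hA' (v + w)
  rw [map_add, map_add] at h1
  rw [h1, hA' v, hA' w]

/-- expansion of the square of the norm in a frame. -/
theorem norm_sq_sum {V : Type*} [NormedAddCommGroup V] [InnerProductSpace ℝ V] {n : ℕ}
    (a : Fin n → ℝ) (f : Fin n → V) :
    ‖∑ k, a k • f k‖ ^ 2 = ∑ k, ∑ l, a k * a l * inner ℝ (f k) (f l) := by
  rw [← real_inner_self_eq_norm_sq, sum_inner]
  refine Finset.sum_congr rfl fun k _ => ?_
  rw [inner_sum]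
  refine Finset.sum_congr rfl fun l _ => ?_
  rw [real_inner_smul_left, real_inner_smul_right]
  ring

/-- the metric in the chart is continuous: near `y₀` it is `(1+ε)`-close to the one at `y₀`. -/
theorem eventually_norm_symm (x₀ : X) {y₀ : E} (hy₀ : y₀ ∈ (ch E x₀).target) {A : E ≃L[ℝ] E}
    (hA : ∀ v : E, ‖A v‖ = ‖(mfderiv 𝓘(ℝ, E) 𝓘(ℝ, E) (ch E x₀).symm y₀ v :
      TangentSpace 𝓘(ℝ, E) ((ch E x₀).symm y₀))‖) {ε : ℝ} (hε : 0 < ε) :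
    ∀ᶠ y in 𝓝 y₀, ∀ v : E,
      ‖(mfderiv 𝓘(ℝ, E) 𝓘(ℝ, E) (ch E x₀).symm y v :
        TangentSpace 𝓘(ℝ, E) ((ch E x₀).symm y))‖ ≤ (1 + ε) * ‖A v‖ ∧
      ‖A v‖ ≤ (1 + ε) * ‖(mfderiv 𝓘(ℝ, E) 𝓘(ℝ, E) (ch E x₀).symm y v :
        TangentSpace 𝓘(ℝ, E) ((ch E x₀).symm y))‖ := by
  classical
  set n := Module.finrank ℝ E with hn
  set b : OrthonormalBasis (Fin n) ℝ E := stdOrthonormalBasis ℝ E with hb
  set f : Fin n → E := fun k => A.symm (b k) with hf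
  set q : ℝ := (1 + ε) ^ 2 with hq
  have hq1 : 1 < q := by rw [hq]; nlinarith
  have hq0 : 0 < q := by linarith
  set η : ℝ := 1 - 1 / q with hη
  have hη0 : 0 < η := by
    rw [hη]
    have : 1 / q < 1 := by rw [div_lt_one hq0]; exact hq1
    linarith
  have hη1 : (1 - η) * q = 1 := by rw [hη]; field_simp; ring
  have hη2 : 1 + η ≤ q := by
    have h1 : 0 ≤ (q - 1) ^ 2 / q := by positivity
    have h2 : (q - 1) ^ 2 / q = q - 2 + 1 / q := by field_simp; ring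
    rw [hη]; linarith
  set δ : ℝ := η / (n + 1) with hδ
  have hδ0 : 0 < δ := by positivity
  have hclose : ∀ᶠ y in 𝓝 y₀, ∀ k l : Fin n, |inner ℝ
      (mfderiv 𝓘(ℝ, E) 𝓘(ℝ, E) (ch E x₀).symm y (f k) :
        TangentSpace 𝓘(ℝ, E) ((ch E x₀).symm y))
      (mfderiv 𝓘(ℝ, E) 𝓘(ℝ, E) (ch E x₀).symm y (f l) :
        TangentSpace 𝓘(ℝ, E) ((ch E x₀).symm y)) - inner ℝ (b k) (b l)| < δ := by
    refine eventually_all.2 fun k => eventually_all.2 fun l => ?_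
    have h1 : ContinuousAt (fun y : E => inner ℝ
      (mfderiv 𝓘(ℝ, E) 𝓘(ℝ, E) (ch E x₀).symm y (f k) :
        TangentSpace 𝓘(ℝ, E) ((ch E x₀).symm y))
      (mfderiv 𝓘(ℝ, E) 𝓘(ℝ, E) (ch E x₀).symm y (f l) :
        TangentSpace 𝓘(ℝ, E) ((ch E x₀).symm y))) y₀ :=
      (continuousOn_gram x₀ (f k) (f l)).continuousAt (ch_target_nhds hy₀)
    have h2 := inner_symm_eq x₀ hA (f k) (f l)
    have h3 : inner ℝ (A (f k)) (A (f l)) = inner ℝ (b k) (b l) := by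
      rw [hf]; simp
    rw [h3] at h2
    have h4 : Tendsto (fun y : E => |inner ℝ
      (mfderiv 𝓘(ℝ, E) 𝓘(ℝ, E) (ch E x₀).symm y (f k) :
        TangentSpace 𝓘(ℝ, E) ((ch E x₀).symm y))
      (mfderiv 𝓘(ℝ, E) 𝓘(ℝ, E) (ch E x₀).symm y (f l) :
        TangentSpace 𝓘(ℝ, E) ((ch E x₀).symm y)) - inner ℝ (b k) (b l)|) (𝓝 y₀) (𝓝 0) := by
      have h5 := (h1.tendsto.sub_const (inner ℝ (b k) (b l))).abs
      rw [h2, sub_self, abs_zero] at h5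
      exact h5
    exact h4.eventually_lt_const hδ0
  filter_upwards [hclose] with y hy v
  set a : Fin n → ℝ := fun k => b.repr (A v) k with ha
  have hAv : A v = ∑ k, a k • b k := (b.sum_repr (A v)).symm
  have hv : v = ∑ k, a k • f k := by
    have h1 : A.symm (A v) = A.symm (∑ k, a k • b k) := by rw [← hAv]
    rw [A.symm_apply_apply, map_sum] at h1
    rw [h1]
    exact Finset.sum_congr rfl fun k _ => by rw [map_smul]
  have hAn : ‖A v‖ ^ 2 = ∑ k, a k ^ 2 := by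
    rw [hAv, norm_sq_sum]
    refine Finset.sum_congr rfl fun k _ => ?_
    rw [Finset.sum_eq_single k]
    · rw [b.inner_eq_ite, if_pos rfl]; ring
    · intro l _ hl
      rw [b.inner_eq_ite, if_neg (Ne.symm hl)]; ring
    · intro h; exact absurd (Finset.mem_univ k) h
  have hDn : ‖(mfderiv 𝓘(ℝ, E) 𝓘(ℝ, E) (ch E x₀).symm y v :
        TangentSpace 𝓘(ℝ, E) ((ch E x₀).symm y))‖ ^ 2 = ∑ k, ∑ l, a k * a l * inner ℝ
      (mfderiv 𝓘(ℝ, E) 𝓘(ℝ, E) (ch E x₀).symm y (f k) :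
        TangentSpace 𝓘(ℝ, E) ((ch E x₀).symm y))
      (mfderiv 𝓘(ℝ, E) 𝓘(ℝ, E) (ch E x₀).symm y (f l) :
        TangentSpace 𝓘(ℝ, E) ((ch E x₀).symm y)) := by
    show ‖Dsym x₀ y v‖ ^ 2 = ∑ k, ∑ l, a k * a l * inner ℝ (Dsym x₀ y (f k)) (Dsym x₀ y (f l))
    rw [← norm_sq_sum]
    conv_lhs => rw [hv, map_sum]
    simp only [map_smul]
  have hAn2 : ‖A v‖ ^ 2 = ∑ k, ∑ l, a k * a l * inner ℝ (b k) (b l) := by
    rw [hAv, norm_sq_sum]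
  have hdiff : |‖(mfderiv 𝓘(ℝ, E) 𝓘(ℝ, E) (ch E x₀).symm y v :
        TangentSpace 𝓘(ℝ, E) ((ch E x₀).symm y))‖ ^ 2 - ‖A v‖ ^ 2| ≤ η * ‖A v‖ ^ 2 := by
    rw [hDn]
    nth_rewrite 1 [hAn2]
    rw [← Finset.sum_sub_distrib]
    have h1 : |∑ k, (∑ l, a k * a l * inner ℝ
      (mfderiv 𝓘(ℝ, E) 𝓘(ℝ, E) (ch E x₀).symm y (f k) :
        TangentSpace 𝓘(ℝ, E) ((ch E x₀).symm y))
      (mfderiv 𝓘(ℝ, E) 𝓘(ℝ, E) (ch E x₀).symm y (f l) :
        TangentSpace 𝓘(ℝ, E) ((ch E x₀).symm y)) - ∑ l, a k * a l * inner ℝ (b k) (b l))| ≤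
        ∑ k, ∑ l, δ * (|a k| * |a l|) := by
      refine (Finset.abs_sum_le_sum_abs _ _).trans (Finset.sum_le_sum fun k _ => ?_)
      rw [← Finset.sum_sub_distrib]
      refine (Finset.abs_sum_le_sum_abs _ _).trans (Finset.sum_le_sum fun l _ => ?_)
      rw [← mul_sub, abs_mul, abs_mul, mul_comm δ]
      exact mul_le_mul_of_nonneg_left (hy k l).le (by positivity)
    refine h1.trans ?_
    have h2 : ∑ k, ∑ l, δ * (|a k| * |a l|) = δ * (∑ k, |a k|) ^ 2 := by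
      rw [sq, Finset.sum_mul_sum, Finset.mul_sum]
      exact Finset.sum_congr rfl fun k _ => by rw [Finset.mul_sum]
    have h3 : (∑ k, |a k|) ^ 2 ≤ n * ∑ k, a k ^ 2 := by
      have h4 := sq_sum_le_card_mul_sum_sq (s := (Finset.univ : Finset (Fin n)))
        (f := fun k => |a k|)
      simpa using h4
    rw [h2, hAn]
    have h5 : 0 ≤ ∑ k, a k ^ 2 := Finset.sum_nonneg fun k _ => sq_nonneg _
    calc δ * (∑ k, |a k|) ^ 2 ≤ δ * (n * ∑ k, a k ^ 2) := mul_le_mul_of_nonneg_left h3 hδ0.le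
      _ = (δ * n) * ∑ k, a k ^ 2 := by ring
      _ ≤ η * ∑ k, a k ^ 2 := by
          refine mul_le_mul_of_nonneg_right ?_ h5
          rw [hδ, div_mul_eq_mul_div, div_le_iff₀ (by positivity)]
          nlinarith
  rw [abs_le] at hdiff
  have hAv0 := sq_nonneg ‖A v‖
  constructor
  · refine abs_le_of_sq_le_sq' (?_ : _ ^ 2 ≤ _ ^ 2) (by positivity) |>.2
    rw [mul_pow]
    nlinarith [hdiff.2]
  · refine abs_le_of_sq_le_sq' (?_ : _ ^ 2 ≤ _ ^ 2) (by positivity) |>.2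
    rw [mul_pow]
    have h1 := hdiff.1
    have h2 : (1 - η) * ‖A v‖ ^ 2 ≤ ‖(mfderiv 𝓘(ℝ, E) 𝓘(ℝ, E) (ch E x₀).symm y v :
        TangentSpace 𝓘(ℝ, E) ((ch E x₀).symm y))‖ ^ 2 := by linarith
    have h3 := mul_le_mul_of_nonneg_left h2 hq0.le
    calc ‖A v‖ ^ 2 = ((1 - η) * q) * ‖A v‖ ^ 2 := by rw [hη1, one_mul]
      _ = q * ((1 - η) * ‖A v‖ ^ 2) := by ring
      _ ≤ _ := h3

set_option backward.isDefEq.respectTransparency false in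
/-- the inverse of the chart does not increase distances by more than `c`, on convex sets. -/
theorem edist_symm_le (x₀ : X) {S : Set E} (hSc : Convex ℝ S) (hSt : S ⊆ (ch E x₀).target)
    {A : E ≃L[ℝ] E} {c : ℝ≥0}
    (h : ∀ y ∈ S, ∀ v : E, ‖(mfderiv 𝓘(ℝ, E) 𝓘(ℝ, E) (ch E x₀).symm y v :
      TangentSpace 𝓘(ℝ, E) ((ch E x₀).symm y))‖ ≤ c * ‖A v‖) {z z' : E} (hz : z ∈ S)
    (hz' : z' ∈ S) :
    edist ((ch E x₀).symm z) ((ch E x₀).symm z') ≤ c * edist (A z) (A z') := by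
  rw [IsRiemannianManifold.out (I := 𝓘(ℝ, E))]
  let η := ContinuousAffineMap.lineMap (R := ℝ) z z'
  set γ := (ch E x₀).symm ∘ η
  have hη : ∀ t ∈ Icc (0 : ℝ) 1, η t ∈ S := by
    intro t ht
    have h1 : η t ∈ segment ℝ z z' := by
      rw [segment_eq_image_lineMap]
      exact ⟨t, ht, rfl⟩
    exact hSc.segment_subset hz hz' h1
  have η_smooth : ContMDiffOn 𝓘(ℝ, ℝ) 𝓘(ℝ, E) 1 η (Icc 0 1) := by
    apply ContMDiff.contMDiffOn
    rw [contMDiff_iff_contDiff]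
    exact ContinuousAffineMap.contDiff _
  have h1 : riemannianEDist 𝓘(ℝ, E) ((ch E x₀).symm z) ((ch E x₀).symm z') ≤
      pathELength 𝓘(ℝ, E) γ 0 1 := by
    apply riemannianEDist_le_pathELength _ _ _ zero_le_one
    · exact (contMDiffOn_extChartAt_symm x₀).comp η_smooth (fun t ht => hSt (hη t ht))
    · simp [γ, η, ContinuousAffineMap.coe_lineMap_eq]
    · simp [γ, η, ContinuousAffineMap.coe_lineMap_eq]
  apply h1.trans
  have hconst : (c : ℝ≥0∞) * edist (A z) (A z') =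
      ∫⁻ _ in Icc (0 : ℝ) 1, (c : ℝ≥0∞) * edist (A z) (A z') := by
    rw [setLIntegral_const, Real.volume_Icc]
    simp
  rw [hconst, pathELength_eq_lintegral_mfderivWithin_Icc]
  apply setLIntegral_mono' measurableSet_Icc (fun t ht ↦ ?_)
  have h2 : mfderivWithin 𝓘(ℝ, ℝ) 𝓘(ℝ, E) γ (Icc 0 1) t =
      (mfderiv 𝓘(ℝ, E) 𝓘(ℝ, E) (ch E x₀).symm (η t)) ∘L
        (mfderivWithin 𝓘(ℝ, ℝ) 𝓘(ℝ, E) η (Icc 0 1) t) := by
    apply mfderiv_comp_mfderivWithin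
    · exact mdiff_ch_symm (hSt (hη t ht))
    · exact η_smooth.mdifferentiableOn one_ne_zero t ht
    · rw [uniqueMDiffWithinAt_iff_uniqueDiffWithinAt]
      exact uniqueDiffOn_Icc zero_lt_one t ht
  have h3 : mfderivWithin 𝓘(ℝ, ℝ) 𝓘(ℝ, E) γ (Icc 0 1) t 1 =
      (mfderiv 𝓘(ℝ, E) 𝓘(ℝ, E) (ch E x₀).symm (η t))
        (mfderivWithin 𝓘(ℝ, ℝ) 𝓘(ℝ, E) η (Icc 0 1) t 1) := congr($h2 1)
  have h4 : (mfderivWithin 𝓘(ℝ, ℝ) 𝓘(ℝ, E) η (Icc 0 1) t 1 : E) = z' - z := by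
    have h5 : HasDerivWithinAt (fun t : ℝ => AffineMap.lineMap z z' t) (z' - z) (Icc 0 1) t :=
      AffineMap.hasDerivAt_lineMap.hasDerivWithinAt
    have h6 : HasDerivWithinAt η (z' - z) (Icc 0 1) t := h5
    have h7 := h6.hasFDerivWithinAt.fderivWithin (uniqueDiffOn_Icc zero_lt_one t ht)
    rw [mfderivWithin_eq_fderivWithin]
    have h8 : fderivWithin ℝ (⇑η) (Icc 0 1) t 1 = z' - z := by
      rw [h7]
      simp
    exact h8
  rw [h3]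
  have h9 := h (η t) (hη t ht) (z' - z)
  have h10 : ‖(mfderiv 𝓘(ℝ, E) 𝓘(ℝ, E) (ch E x₀).symm (η t))
        (mfderivWithin 𝓘(ℝ, ℝ) 𝓘(ℝ, E) η (Icc 0 1) t 1)‖ₑ =
      ENNReal.ofReal ‖(mfderiv 𝓘(ℝ, E) 𝓘(ℝ, E) (ch E x₀).symm (η t) (z' - z) :
        TangentSpace 𝓘(ℝ, E) ((ch E x₀).symm (η t)))‖ := by
    rw [← ofReal_norm]
    exact congrArg (fun u : E => ENNReal.ofReal ‖(mfderiv 𝓘(ℝ, E) 𝓘(ℝ, E) (ch E x₀).symm (η t) u :
        TangentSpace 𝓘(ℝ, E) ((ch E x₀).symm (η t)))‖) h4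
  refine (le_of_eq h10).trans ((ENNReal.ofReal_le_ofReal h9).trans ?_)
  rw [ENNReal.ofReal_mul (NNReal.coe_nonneg c), ENNReal.ofReal_coe_nnreal, ofReal_norm,
    edist_comm, edist_eq_enorm_sub, map_sub]

set_option backward.isDefEq.respectTransparency false in
/-- the length of a path in the chart domain controls the displacement in the chart. -/
theorem enorm_le_length (x₀ : X) {u : Set X} (hu : u ⊆ (ch E x₀).source) {A : E ≃L[ℝ] E}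
    {c : ℝ≥0} (h : ∀ x ∈ u, ∀ v : TangentSpace 𝓘(ℝ, E) x,
      ‖A (mfderiv 𝓘(ℝ, E) 𝓘(ℝ, E) (ch E x₀) x v)‖ ≤ c * ‖v‖)
    (γ : ℝ → X) (γ_smooth : ContMDiff 𝓘(ℝ, ℝ) 𝓘(ℝ, E) 1 γ) {t₁ : ℝ} (ht₁0 : 0 ≤ t₁)
    (hmem : Icc 0 t₁ ⊆ γ ⁻¹' u) :
    ‖A (ch E x₀ (γ t₁)) - A (ch E x₀ (γ 0))‖ₑ ≤ c * pathELength 𝓘(ℝ, E) γ 0 t₁ := by
  have uc' : u ⊆ (chartAt E x₀).source := by
    simpa [extChartAt_source 𝓘(ℝ, E) x₀] using hu
  let γ₁ := ch E x₀ ∘ γ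
  let γ' := A ∘ γ₁
  have hγ₁ : ContMDiffOn 𝓘(ℝ, ℝ) 𝓘(ℝ, E) 1 γ₁ (Icc 0 t₁) :=
    contMDiffOn_extChartAt.comp (I' := 𝓘(ℝ, E)) (t := (chartAt E x₀).source)
      γ_smooth.contMDiffOn (fun t' ht' ↦ uc' <| hmem ht')
  have hγ₁' : ContDiffOn ℝ 1 γ₁ (Icc 0 t₁) := by rwa [← contMDiffOn_iff_contDiffOn]
  have hγ' : ContDiffOn ℝ 1 γ' (Icc 0 t₁) := A.contDiff.comp_contDiffOn hγ₁'
  rcases ht₁0.eq_or_lt with rfl | h't'
  · simp
  calc
    ‖γ' t₁ - γ' 0‖ₑ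
    _ ≤ ∫⁻ t' in Icc 0 t₁, ‖derivWithin γ' (Icc 0 t₁) t'‖ₑ :=
      enorm_sub_le_lintegral_derivWithin_Icc_of_contDiffOn_Icc hγ' ht₁0
    _ ≤ ∫⁻ t' in Icc 0 t₁, c * ‖mfderivWithin 𝓘(ℝ, ℝ) 𝓘(ℝ, E) γ (Icc 0 t₁) t' 1‖ₑ := by
      apply setLIntegral_mono' measurableSet_Icc (fun t' ht' ↦ ?_)
      have hud : UniqueDiffWithinAt ℝ (Icc 0 t₁) t' := uniqueDiffOn_Icc h't' _ ht'
      have h2 : mfderivWithin 𝓘(ℝ, ℝ) 𝓘(ℝ, E) γ₁ (Icc 0 t₁) t' =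
          (mfderiv 𝓘(ℝ, E) 𝓘(ℝ, E) (ch E x₀) (γ t')) ∘L
            (mfderivWithin 𝓘(ℝ, ℝ) 𝓘(ℝ, E) γ (Icc 0 t₁) t') := by
        apply mfderiv_comp_mfderivWithin
        · refine mdifferentiableAt_extChartAt (uc' ?_)
          apply hmem ht'
        · exact (γ_smooth.mdifferentiable one_ne_zero).mdifferentiableOn _ ht'
        · rw [uniqueMDiffWithinAt_iff_uniqueDiffWithinAt]
          exact hud
      have h3 : (fderivWithin ℝ γ₁ (Icc 0 t₁) t' 1 : E) =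
          (mfderiv 𝓘(ℝ, E) 𝓘(ℝ, E) (ch E x₀) (γ t'))
            (mfderivWithin 𝓘(ℝ, ℝ) 𝓘(ℝ, E) γ (Icc 0 t₁) t' 1) := by
        rw [mfderivWithin_eq_fderivWithin] at h2
        exact congr($h2 1)
      have h5 : derivWithin γ' (Icc 0 t₁) t' = A (fderivWithin ℝ γ₁ (Icc 0 t₁) t' 1) := by
        have h6 : HasFDerivWithinAt γ' ((A : E →L[ℝ] E).comp (fderivWithin ℝ γ₁ (Icc 0 t₁) t'))
            (Icc 0 t₁) t' :=
          A.hasFDerivAt.comp_hasFDerivWithinAt t'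
            ((hγ₁'.differentiableOn one_ne_zero) t' ht').hasFDerivWithinAt
        rw [← fderivWithin_derivWithin, h6.fderivWithin hud]
        rfl
      rw [h5, h3, ← ofReal_norm, ← ofReal_norm]
      have h7 := h (γ t') (hmem ht') (mfderivWithin 𝓘(ℝ, ℝ) 𝓘(ℝ, E) γ (Icc 0 t₁) t' 1)
      have h8 : (c : ℝ≥0∞) = ENNReal.ofReal (c : ℝ) := (ENNReal.ofReal_coe_nnreal).symm
      rw [h8, ← ENNReal.ofReal_mul (NNReal.coe_nonneg c)]
      exact ENNReal.ofReal_le_ofReal h7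
    _ = c * pathELength 𝓘(ℝ, E) γ 0 t₁ := by
      rw [lintegral_const_mul' _ _ ENNReal.coe_ne_top,
          pathELength_eq_lintegral_mfderivWithin_Icc]

/-- the chart is almost isometric. -/
theorem almost_isometry (x₀ : X) {y₀ : E} (hy₀ : y₀ ∈ (ch E x₀).target) {A : E ≃L[ℝ] E}
    (hA : ∀ v : E, ‖A v‖ = ‖(mfderiv 𝓘(ℝ, E) 𝓘(ℝ, E) (ch E x₀).symm y₀ v :
      TangentSpace 𝓘(ℝ, E) ((ch E x₀).symm y₀))‖) {ε : ℝ} (hε : 0 < ε) :
    ∃ V ∈ 𝓝 y₀, IsOpen V ∧ V ⊆ (ch E x₀).target ∧ ∀ z ∈ V, ∀ z' ∈ V,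
      edist ((ch E x₀).symm z) ((ch E x₀).symm z') ≤ ENNReal.ofReal (1 + ε) * edist (A z) (A z') ∧
      edist (A z) (A z') ≤ ENNReal.ofReal (1 + ε) *
        edist ((ch E x₀).symm z) ((ch E x₀).symm z') := by
  set c : ℝ≥0 := Real.toNNReal (1 + ε) with hc
  have hcr : (c : ℝ) = 1 + ε := Real.coe_toNNReal _ (by linarith)
  have hcE : ENNReal.ofReal (1 + ε) = (c : ℝ≥0∞) := rfl
  have hc0 : 0 < c := by
    have : (0 : ℝ) < c := by rw [hcr]; linarith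
    exact_mod_cast this
  have hev := (eventually_norm_symm x₀ hy₀ hA hε).and (ch_target_nhds hy₀)
  obtain ⟨ρ, hρ, hball⟩ : ∃ ρ : ℝ, 0 < ρ ∧ ∀ y : E, A y ∈ Metric.closedBall (A y₀) ρ →
      (∀ v : E, ‖(mfderiv 𝓘(ℝ, E) 𝓘(ℝ, E) (ch E x₀).symm y v :
        TangentSpace 𝓘(ℝ, E) ((ch E x₀).symm y))‖ ≤ (1 + ε) * ‖A v‖ ∧
      ‖A v‖ ≤ (1 + ε) * ‖(mfderiv 𝓘(ℝ, E) 𝓘(ℝ, E) (ch E x₀).symm y v :
        TangentSpace 𝓘(ℝ, E) ((ch E x₀).symm y))‖) ∧ y ∈ (ch E x₀).target := by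
    have h1 : Tendsto A.symm (𝓝 (A y₀)) (𝓝 y₀) := by
      have h2 := A.symm.continuous.tendsto (A y₀)
      rwa [A.symm_apply_apply] at h2
    obtain ⟨ρ, hρ, hb⟩ := Metric.nhds_basis_closedBall.eventually_iff.1 (h1.eventually hev)
    refine ⟨ρ, hρ, fun y hy => ?_⟩
    have h3 := hb hy
    rw [A.symm_apply_apply] at h3
    exact ⟨h3.1, h3.2⟩
  set S : Set E := A ⁻¹' Metric.closedBall (A y₀) ρ with hS
  have hSt : S ⊆ (ch E x₀).target := fun y hy => (hball y hy).2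
  have hSc : Convex ℝ S := (convex_closedBall (A y₀) ρ).linear_preimage (A : E →ₗ[ℝ] E)
  have hScomp : IsCompact S := by
    have h1 : S = A.symm '' Metric.closedBall (A y₀) ρ := by
      ext y
      constructor
      · intro hy
        exact ⟨A y, hy, A.symm_apply_apply y⟩
      · rintro ⟨w, hw, rfl⟩
        rw [hS, mem_preimage, A.apply_symm_apply]
        exact hw
    rw [h1]
    exact (isCompact_closedBall _ _).image A.symm.continuous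
  have hsub : A ⁻¹' Metric.ball (A y₀) (ρ / 3) ⊆ S := by
    intro y hy
    have h1 : dist (A y) (A y₀) < ρ / 3 := hy
    show dist (A y) (A y₀) ≤ ρ
    linarith
  have hVo : ∀ r : ℝ, IsOpen (A ⁻¹' Metric.ball (A y₀) r) := fun r =>
    Metric.isOpen_ball.preimage A.continuous
  refine ⟨A ⁻¹' Metric.ball (A y₀) (ρ / 3), ?_, hVo _,
    hsub.trans hSt, fun z hz z' hz' => ⟨?_, ?_⟩⟩
  · exact (hVo _).mem_nhds (Metric.mem_ball_self (by positivity))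
  · rw [hcE]
    refine edist_symm_le x₀ hSc hSt (fun y hy v => ?_) (hsub hz) (hsub hz')
    rw [hcr]
    exact ((hball y hy).1 v).1
  · rw [hcE]
    by_contra hcon
    rw [not_le] at hcon
    set D : ℝ≥0∞ := edist (A z) (A z') with hD
    have hDr : D ≤ ENNReal.ofReal (2 * ρ / 3) := by
      rw [hD, edist_dist]
      apply ENNReal.ofReal_le_ofReal
      have h1 : dist (A z) (A y₀) < ρ / 3 := hz
      have h2 : dist (A z') (A y₀) < ρ / 3 := hz'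
      have h3 := dist_triangle_right (A z) (A z') (A y₀)
      linarith
    have hlt : riemannianEDist 𝓘(ℝ, E) ((ch E x₀).symm z) ((ch E x₀).symm z') < D / c := by
      rw [← IsRiemannianManifold.out (I := 𝓘(ℝ, E))]
      rw [ENNReal.lt_div_iff_mul_lt (Or.inl (by exact_mod_cast hc0.ne')) (Or.inl (by simp)), mul_comm]
      exact hcon
    obtain ⟨γ, hγx, hγy, γ_smooth, hγ, -⟩ :=
      exists_lt_locally_constant_of_riemannianEDist_lt hlt zero_lt_one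
    have hlen : (c : ℝ≥0∞) * pathELength 𝓘(ℝ, E) γ 0 1 < D := by
      rw [ENNReal.lt_div_iff_mul_lt (Or.inl (by exact_mod_cast hc0.ne')) (Or.inl (by simp)),
        mul_comm] at hγ
      exact hγ
    set u : Set X := (ch E x₀).symm '' S with hu
    have uc : u ⊆ (ch E x₀).source := by
      rintro _ ⟨y, hy, rfl⟩
      exact (ch E x₀).map_target (hSt hy)
    have hub : ∀ x ∈ u, ∀ v : TangentSpace 𝓘(ℝ, E) x,
        ‖A (mfderiv 𝓘(ℝ, E) 𝓘(ℝ, E) (ch E x₀) x v)‖ ≤ c * ‖v‖ := by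
      rintro _ ⟨y, hy, rfl⟩ v
      rw [hcr]
      have h1 := ((hball y hy).1 (mfderiv 𝓘(ℝ, E) 𝓘(ℝ, E) (ch E x₀) ((ch E x₀).symm y) v)).2
      have h2 : (mfderiv 𝓘(ℝ, E) 𝓘(ℝ, E) (ch E x₀).symm (ch E x₀ ((ch E x₀).symm y))
          (mfderiv 𝓘(ℝ, E) 𝓘(ℝ, E) (ch E x₀) ((ch E x₀).symm y) v) : E) = v :=
        mfderiv_ch_symm_comp ((ch E x₀).map_target (hSt hy)) v
      have h3 : ∀ y' : E, y' = y → (mfderiv 𝓘(ℝ, E) 𝓘(ℝ, E) (ch E x₀).symm y'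
          (mfderiv 𝓘(ℝ, E) 𝓘(ℝ, E) (ch E x₀) ((ch E x₀).symm y) v) : E) =
          mfderiv 𝓘(ℝ, E) 𝓘(ℝ, E) (ch E x₀).symm y
          (mfderiv 𝓘(ℝ, E) 𝓘(ℝ, E) (ch E x₀) ((ch E x₀).symm y) v) := by
        rintro y' rfl; rfl
      have h4 := (h3 _ ((ch E x₀).right_inv (hSt hy))).symm.trans h2
      refine h1.trans (le_of_eq ?_)
      exact congrArg (fun w : TangentSpace 𝓘(ℝ, E) ((ch E x₀).symm y) => (1 + ε) * ‖w‖) h4
    have v_open : IsOpen ((ch E x₀).source ∩ ch E x₀ ⁻¹' (A ⁻¹' Metric.ball (A y₀) ρ)) := by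
      have h3 := isOpen_extChartAt_preimage (I := 𝓘(ℝ, E)) x₀ (hVo ρ)
      rwa [← extChartAt_source 𝓘(ℝ, E) x₀] at h3
    have hvu : (ch E x₀).source ∩ ch E x₀ ⁻¹' (A ⁻¹' Metric.ball (A y₀) ρ) ⊆ u := by
      rintro x ⟨hx, hx'⟩
      exact ⟨ch E x₀ x, Metric.ball_subset_closedBall hx', (ch E x₀).left_inv hx⟩
    have u_closed : IsClosed u :=
      (hScomp.image_of_continuousOn ((continuousOn_extChartAt_symm x₀).mono hSt)).isClosed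
    have zero_mem : (0 : ℝ) ∈ γ ⁻¹' u := by
      change γ 0 ∈ u
      rw [hγx]
      exact ⟨z, hsub hz, rfl⟩
    have A_closed : IsClosed (γ ⁻¹' u ∩ Icc 0 1) :=
      (u_closed.preimage γ_smooth.continuous).inter isClosed_Icc
    have hall : Icc (0 : ℝ) 1 ⊆ γ ⁻¹' u := by
      apply A_closed.Icc_subset_of_forall_mem_nhdsGT_of_Icc_subset zero_mem
      rintro t₁ ⟨ht₁0, ht₁1⟩ t₁_mem
      suffices γ t₁ ∈ (ch E x₀).source ∩ ch E x₀ ⁻¹' (A ⁻¹' Metric.ball (A y₀) ρ) from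
        γ_smooth.continuous.continuousWithinAt <|
          Filter.mem_of_superset (v_open.mem_nhds this) hvu
      have h1 := enorm_le_length x₀ uc hub γ γ_smooth ht₁0 t₁_mem
      have hmono : pathELength 𝓘(ℝ, E) γ 0 t₁ ≤ pathELength 𝓘(ℝ, E) γ 0 1 :=
        pathELength_mono le_rfl ht₁1.le
      have h2 : ‖A (ch E x₀ (γ t₁)) - A (ch E x₀ (γ 0))‖ₑ < ENNReal.ofReal (2 * ρ / 3) := by
        refine lt_of_le_of_lt h1 (lt_of_le_of_lt ?_ (hlen.trans_le hDr))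
        gcongr
      have h3 : dist (A (ch E x₀ (γ t₁))) (A (ch E x₀ (γ 0))) < 2 * ρ / 3 := by
        rw [dist_eq_norm]
        rw [← ofReal_norm, ENNReal.ofReal_lt_ofReal_iff (by positivity)] at h2
        exact h2
      have h4 : dist (A (ch E x₀ (γ 0))) (A y₀) < ρ / 3 := by
        rw [hγx, (ch E x₀).right_inv (hSt (hsub hz))]
        exact hz
      refine ⟨uc (t₁_mem (right_mem_Icc.mpr ht₁0)), ?_⟩
      rw [mem_preimage, mem_preimage, Metric.mem_ball]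
      have h5 := dist_triangle (A (ch E x₀ (γ t₁))) (A (ch E x₀ (γ 0))) (A y₀)
      linarith
    have h1 := enorm_le_length x₀ uc hub γ γ_smooth zero_le_one hall
    rw [hγx, hγy, (ch E x₀).right_inv (hSt (hsub hz)), (ch E x₀).right_inv (hSt (hsub hz')),
      ← edist_eq_enorm_sub, edist_comm] at h1
    exact absurd (h1.trans_lt hlen) (lt_irrefl _)

end Pool.Agent.ZSp
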